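import Mathlib

/-!
Property (F) (Ulam, Scottish Book, Problem 110) near an arc with point attachments.

Let `X` be a metric space and let `s : (0,1) → X` be an open arc to which, locally, the rest of
the space is attached at single points: there are an open set `U` which contains the arc and a
continuous map `r : U → ℝ` with `r (s c) = c` such that for every `c` in `(0,1)` the set of the
points of `U` other than `s c` which are sent to `c` is open in `X`.  Then every continuous
self-map of `X` all of whose iterates have small displacement has fixed points on every given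
closed subarc.  In particular `X` has property (F), whatever is attached to the arc.
-/

namespace Pool.Agent.Results.MP_98cb65_gt.ArcCore

open Topology Filter Set

/-- All iterates of `T` move every point by less than `B`. -/
def DispBelow {X : Type*} [MetricSpace X] (T : X → X) (B : ℝ) : Prop :=
  ∀ n : ℕ, 1 ≤ n → ∀ x : X, dist (T^[n] x) x < B

/-- Property (F): for some `B > 0`, every continuous self-map of `X` all of whose iterates move
every point by less than `B` has a fixed point. -/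
def PropF (X : Type*) [MetricSpace X] : Prop :=
  ∃ B : ℝ, 0 < B ∧ ∀ T : X → X, Continuous T → DispBelow T B → ∃ x, T x = x

/-- An open arc with point attachments: `s` is continuous on `(0,1)` with values in the open set
`U`, `r` is continuous on `U`, `r (s c) = c`, and the points of `U` other than `s c` which `r`
sends to `c` form an open set. -/
def IsArcCore {X : Type*} [MetricSpace X] (U : Set X) (r : X → ℝ) (s : ℝ → X) : Prop :=
  IsOpen U ∧ ContinuousOn r U ∧ ContinuousOn s (Ioo 0 1) ∧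
    ∀ c ∈ Ioo (0 : ℝ) 1, s c ∈ U ∧ r (s c) = c ∧ IsOpen {x | x ∈ U ∧ r x = c ∧ x ≠ s c}

section Core

variable {X : Type*} [MetricSpace X] {U : Set X} {r : X → ℝ} {s : ℝ → X} {T : X → X} {a b κ : ℝ}

/-- The situation on a closed subarc, for a map without fixed point on this subarc. -/
structure Loc (U : Set X) (r : X → ℝ) (s : ℝ → X) (T : X → X) (a b κ : ℝ) : Prop where
  rU : ContinuousOn r U
  sc : ContinuousOn s (Icc a b)
  Tc : Continuous T
  mem : ∀ c ∈ Icc a b, T (s c) ∈ U
  small : ∀ c ∈ Icc a b, |r (T (s c)) - c| < κ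
  iter : ∀ n : ℕ, 1 ≤ n → ∀ c ∈ Icc a b, ∀ d ∈ Icc a b, T^[n] (s c) = s d → |d - c| < κ
  op : ∀ c ∈ Icc a b, IsOpen {x | x ∈ U ∧ r x = c ∧ x ≠ s c}
  nofix : ∀ c ∈ Icc a b, T (s c) ≠ s c

theorem Loc.mono (h : Loc U r s T a b κ) {a' b' : ℝ} (ha : a ≤ a') (hb : b' ≤ b) :
    Loc U r s T a' b' κ := by
  have hsub : Icc a' b' ⊆ Icc a b := Icc_subset_Icc ha hb
  exact ⟨h.rU, h.sc.mono hsub, h.Tc, fun c hc => h.mem c (hsub hc),
    fun c hc => h.small c (hsub hc), fun n hn c hc d hd => h.iter n hn c (hsub hc) d (hsub hd),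
    fun c hc => h.op c (hsub hc), fun c hc => h.nofix c (hsub hc)⟩

theorem Loc.reflect (h : Loc U r s T a b κ) :
    Loc U (fun x => a + b - r x) (fun c => s (a + b - c)) T a b κ := by
  have hm : ∀ c ∈ Icc a b, a + b - c ∈ Icc a b := fun c hc => by
    rw [mem_Icc] at hc ⊢
    constructor <;> linarith [hc.1, hc.2]
  refine ⟨continuousOn_const.sub h.rU, ?_, h.Tc, fun c hc => h.mem _ (hm c hc), ?_, ?_, ?_,
    fun c hc => h.nofix _ (hm c hc)⟩
  · exact h.sc.comp (continuousOn_const.sub continuousOn_id) hm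
  · intro c hc
    have := h.small _ (hm c hc)
    rw [← abs_neg]
    rwa [show -(a + b - r (T (s (a + b - c))) - c) = r (T (s (a + b - c))) - (a + b - c) by ring]
  · intro n hn c hc d hd hcd
    have := h.iter n hn _ (hm c hc) _ (hm d hd) hcd
    rw [← abs_neg]
    rwa [show -(d - c) = a + b - d - (a + b - c) by ring]
  · intro c hc
    have := h.op _ (hm c hc)
    have he : {x | x ∈ U ∧ a + b - r x = c ∧ x ≠ s (a + b - c)} =
        {x | x ∈ U ∧ r x = a + b - c ∧ x ≠ s (a + b - c)} := by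
      ext x
      simp only [mem_ofPred_eq]
      constructor
      · rintro ⟨h1, h2, h3⟩
        exact ⟨h1, by linarith, h3⟩
      · rintro ⟨h1, h2, h3⟩
        exact ⟨h1, by linarith, h3⟩
    rw [he]
    exact this

/-- The displacement along the arc. -/
theorem Loc.contΦ (h : Loc U r s T a b κ) : ContinuousOn (fun t => r (T (s t))) (Icc a b) :=
  h.rU.comp (h.Tc.comp_continuousOn h.sc) h.mem

/-- Points of the arc in front of a point with positive displacement are exactly attained. -/
theorem Loc.exists_back (h : Loc U r s T a b κ) (hκ : 0 < κ)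
    (hpos : ∀ t ∈ Icc a b, t < r (T (s t))) {w : ℝ} (hw1 : a + κ ≤ w) (hw2 : w ≤ b) :
    ∃ z ∈ Icc a w, r (T (s z)) = w ∧ T (s z) = s w := by
  by_contra hcon
  push Not at hcon
  have haw : a ≤ w := by linarith
  have hwm : w ∈ Icc a b := ⟨haw, hw2⟩
  have hsub : Icc a w ⊆ Icc a b := Icc_subset_Icc le_rfl hw2
  have hΦ : ContinuousOn (fun t => r (T (s t))) (Icc a w) := h.contΦ.mono hsub
  -- the set of the points sent to the fibre of `w`, inside the interval `[a, w]`
  have hne : ∃ z ∈ Icc a w, r (T (s z)) = w := by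
    have h1 := (abs_lt.1 (h.small a ⟨le_rfl, haw.trans hw2⟩)).2
    have h2 := hpos w hwm
    have := intermediate_value_Icc haw hΦ
    obtain ⟨z, hz, hz'⟩ := this (show w ∈ Icc (r (T (s a))) (r (T (s w))) from
      ⟨by linarith, h2.le⟩)
    exact ⟨z, hz, hz'⟩
  have hTs : ContinuousOn (fun t => T (s t)) (Icc a w) := h.Tc.comp_continuousOn (h.sc.mono hsub)
  -- clopen in the interval
  have hpre : IsPreconnected (Icc a w) := isPreconnected_Icc
  set O : Set X := {x | x ∈ U ∧ r x = w ∧ x ≠ s w} with hO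
  have hOo : IsOpen O := h.op w hwm
  obtain ⟨u, hu, huO⟩ := (continuousOn_iff'.1 hTs) O hOo
  obtain ⟨v, hv, hvO⟩ := (continuousOn_iff'.1 hΦ) {w}ᶜ isOpen_compl_singleton
  have hcov : Icc a w ⊆ u ∪ v := by
    intro t ht
    by_cases h1 : r (T (s t)) = w
    · left
      have : t ∈ (fun t => T (s t)) ⁻¹' O ∩ Icc a w :=
        ⟨⟨h.mem t (hsub ht), h1, hcon t ht h1⟩, ht⟩
      rw [huO] at this
      exact this.1
    · right
      have : t ∈ (fun t => r (T (s t))) ⁻¹' {w}ᶜ ∩ Icc a w := ⟨h1, ht⟩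
      rw [hvO] at this
      exact this.1
  have hu1 : (Icc a w ∩ u).Nonempty := by
    obtain ⟨z, hz, hz'⟩ := hne
    refine ⟨z, hz, ?_⟩
    have : z ∈ (fun t => T (s t)) ⁻¹' O ∩ Icc a w :=
      ⟨⟨h.mem z (hsub hz), hz', hcon z hz hz'⟩, hz⟩
    rw [huO] at this
    exact this.1
  have hv1 : (Icc a w ∩ v).Nonempty := by
    refine ⟨w, ⟨haw, le_rfl⟩, ?_⟩
    have : w ∈ (fun t => r (T (s t))) ⁻¹' {w}ᶜ ∩ Icc a w :=
      ⟨fun hh => (hpos w hwm).ne' hh, haw, le_rfl⟩
    rw [hvO] at this
    exact this.1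
  obtain ⟨t, ht, htu, htv⟩ := hpre u v hu hv hcov hu1 hv1
  have h1 : t ∈ u ∩ Icc a w := ⟨htu, ht⟩
  have h2 : t ∈ v ∩ Icc a w := ⟨htv, ht⟩
  rw [← huO] at h1
  rw [← hvO] at h2
  exact h2.1 h1.1.2.1

/-- No drift in the positive direction. -/
theorem Loc.drift (h : Loc U r s T a b κ) (hκ : 0 < κ) (hab : 4 * κ ≤ b - a)
    (hpos : ∀ t ∈ Icc a b, t < r (T (s t))) : False := by
  have hab' : a ≤ b := by linarith
  -- a positive lower bound of the displacement
  obtain ⟨t0, ht0m, ht0⟩ := (isCompact_Icc (a := a) (b := b)).exists_isMinOn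
    ⟨a, le_rfl, hab'⟩ (h.contΦ.sub continuousOn_id)
  set δ := r (T (s t0)) - t0 with hδ
  have hδpos : 0 < δ := sub_pos.2 (hpos t0 ht0m)
  have hlb : ∀ t ∈ Icc a b, δ ≤ r (T (s t)) - t := fun t ht => ht0 ht
  have hback : ∀ w : ℝ, ∃ z : ℝ, a + κ ≤ w → w ≤ b →
      z ∈ Icc a w ∧ r (T (s z)) = w ∧ T (s z) = s w := by
    intro w
    by_cases hw : a + κ ≤ w ∧ w ≤ b
    · obtain ⟨z, hz1, hz2, hz3⟩ := h.exists_back hκ hpos hw.1 hw.2
      exact ⟨z, fun _ _ => ⟨hz1, hz2, hz3⟩⟩
    · exact ⟨0, fun h1 h2 => absurd ⟨h1, h2⟩ hw⟩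
  choose g hg using hback
  obtain ⟨z, hz0, hzs⟩ : ∃ z : ℕ → ℝ, z 0 = b ∧ ∀ k, z (k + 1) = g (z k) :=
    ⟨fun k => g^[k] b, rfl, fun k => Function.iterate_succ_apply' g k b⟩
  -- one step
  have hstep : ∀ k, a + κ ≤ z k → z k ≤ b → z (k + 1) ∈ Icc a b ∧ z (k + 1) ≤ z k - δ ∧
      z k - κ < z (k + 1) ∧ T (s (z (k + 1))) = s (z k) := by
    intro k h1 h2
    obtain ⟨h3, h4, h5⟩ := hg (z k) h1 h2
    rw [← hzs k] at h3 h4 h5
    have hm : z (k + 1) ∈ Icc a b := ⟨h3.1, h3.2.trans h2⟩
    have h6 := hlb _ hm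
    have h7 := (abs_lt.1 (h.small _ hm)).2
    rw [h4] at h6 h7
    exact ⟨hm, by linarith, by linarith, h5⟩
  by_cases hall : ∀ k, b - κ < z k
  · -- impossible: the sequence decreases by at least `δ` at each step
    have hle : ∀ k : ℕ, z k ≤ b - k * δ := by
      intro k
      induction k with
      | zero => simp [hz0]
      | succ k ih =>
        have hk := hall k
        have hkb : z k ≤ b := by
          have : 0 ≤ (k : ℝ) * δ := by positivity
          linarith
        have := (hstep k (by linarith) hkb).2.1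
        push_cast
        linarith
    obtain ⟨k, hk⟩ := exists_nat_gt (κ / δ)
    rw [div_lt_iff₀ hδpos] at hk
    have := hle k
    have := hall k
    linarith
  · push Not at hall
    classical
    set N := Nat.find hall with hN
    have hNspec : z N ≤ b - κ := Nat.find_spec hall
    have hNmin : ∀ k < N, b - κ < z k := fun k hk => not_le.1 (Nat.find_min hall hk)
    have hNpos : N ≠ 0 := by
      intro h0
      rw [h0, hz0] at hNspec
      linarith
    have hleb : ∀ k ≤ N, z k ≤ b := by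
      intro k
      induction k with
      | zero => intro _; rw [hz0]
      | succ k ih =>
        intro hk
        have h1 := ih (by omega)
        have h2 := hNmin k (by omega)
        have := (hstep k (by linarith) h1).2.1
        linarith
    have hit : ∀ k ≤ N, T^[k] (s (z k)) = s b := by
      intro k
      induction k with
      | zero => intro _; simp [hz0]
      | succ k ih =>
        intro hk
        have h1 := hleb k (by omega)
        have h2 := hNmin k (by omega)
        rw [Function.iterate_succ_apply, (hstep k (by linarith) h1).2.2.2]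
        exact ih (by omega)
    obtain ⟨M, hM⟩ := Nat.exists_eq_succ_of_ne_zero hNpos
    have h1 := hleb M (by omega)
    have h2 := hNmin M (by omega)
    have h3 := hstep M (by linarith) h1
    have h4 : z (M + 1) = z N := by rw [hM]
    rw [h4] at h3
    have h5 := h.iter N (Nat.one_le_iff_ne_zero.2 hNpos) (z N) h3.1 b ⟨hab', le_rfl⟩
      (hit N le_rfl)
    rw [abs_lt] at h5
    linarith

theorem Loc.exists_zero (h : Loc U r s T a b κ) (hκ : 0 < κ) (hab : 4 * κ ≤ b - a) :
    ∃ t ∈ Icc a b, r (T (s t)) = t := by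
  by_contra hcon
  push Not at hcon
  have hab' : a ≤ b := by linarith
  have hc : ContinuousOn (fun t => r (T (s t)) - t) (Icc a b) := h.contΦ.sub continuousOn_id
  have himg : IsPreconnected ((fun t => r (T (s t)) - t) '' Icc a b) :=
    isPreconnected_Icc.image _ hc
  have hnz : ∀ x y : ℝ, x ∈ Icc a b → y ∈ Icc a b → r (T (s x)) - x < 0 →
      0 < r (T (s y)) - y → False := by
    intro x y hx hy h1 h2
    obtain ⟨t, ht, ht'⟩ := himg.Icc_subset (mem_image_of_mem _ hx) (mem_image_of_mem _ hy)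
      ⟨h1.le, h2.le⟩
    exact hcon t ht (by
      have : r (T (s t)) - t = 0 := ht'
      linarith)
  have ham : a ∈ Icc a b := ⟨le_rfl, hab'⟩
  rcases lt_or_gt_of_ne (hcon a ham) with h0 | h0
  · -- negative everywhere
    have hneg : ∀ t ∈ Icc a b, r (T (s t)) < t := by
      intro t ht
      by_contra h1
      have h2 : t < r (T (s t)) := lt_of_le_of_ne (not_lt.1 h1) (hcon t ht).symm
      exact hnz a t ham ht (by linarith) (by linarith)
    refine h.reflect.drift hκ hab ?_
    intro t ht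
    have hm : a + b - t ∈ Icc a b := by
      rw [mem_Icc] at ht ⊢
      constructor <;> linarith [ht.1, ht.2]
    have := hneg _ hm
    change t < a + b - r (T (s (a + b - t)))
    linarith
  · have hpos : ∀ t ∈ Icc a b, t < r (T (s t)) := by
      intro t ht
      by_contra h1
      have h2 : r (T (s t)) < t := lt_of_le_of_ne (not_lt.1 h1) (hcon t ht)
      exact hnz t a ht ham (by linarith) (by linarith)
    exact h.drift hκ hab hpos

/-- Near a zero of the displacement the displaced point does not move. -/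
theorem Loc.at_zero (h : Loc U r s T a b κ) {t0 : ℝ} (ht0 : t0 ∈ Icc a b)
    (h0 : r (T (s t0)) = t0) :
    ∃ ε > 0, ∀ t ∈ Icc a b, |t - t0| < ε → r (T (s t)) = t0 := by
  have hTs : ContinuousOn (fun t => T (s t)) (Icc a b) := h.Tc.comp_continuousOn h.sc
  have hmem : T (s t0) ∈ {x | x ∈ U ∧ r x = t0 ∧ x ≠ s t0} := ⟨h.mem t0 ht0, h0, h.nofix t0 ht0⟩
  have h1 := (hTs t0 ht0) ((h.op t0 ht0).mem_nhds hmem)
  rw [mem_map] at h1
  obtain ⟨ε, hε, hε'⟩ := Metric.mem_nhdsWithin_iff.1 h1
  refine ⟨ε, hε, fun t ht htε => ?_⟩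
  have : t ∈ Metric.ball t0 ε ∩ Icc a b := ⟨by rwa [Metric.mem_ball, Real.dist_eq], ht⟩
  exact (hε' this).2.1

theorem Loc.no_two_zeros (h : Loc U r s T a b κ) {t0 t1 : ℝ} (ht0 : t0 ∈ Icc a b)
    (ht1 : t1 ∈ Icc a b) (hlt : t0 < t1) (h0 : r (T (s t0)) = t0) (h1 : r (T (s t1)) = t1) :
    False := by
  obtain ⟨ε, hε, hb⟩ := h.at_zero ht0 h0
  obtain ⟨ε', hε', hb'⟩ := h.at_zero ht1 h1
  set η := min (min (ε / 2) (ε' / 2)) ((t1 - t0) / 4) with hη
  have hηpos : 0 < η := lt_min (lt_min (by linarith) (by linarith)) (by linarith)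
  have hη1 : η ≤ ε / 2 := (min_le_left _ _).trans (min_le_left _ _)
  have hη2 : η ≤ ε' / 2 := (min_le_left _ _).trans (min_le_right _ _)
  have hη3 : η ≤ (t1 - t0) / 4 := min_le_right _ _
  have hsub : Icc (t0 + η) (t1 - η) ⊆ Icc a b :=
    Icc_subset_Icc (by linarith [ht0.1]) (by linarith [ht1.2])
  have hmid : t0 + η ≤ t1 - η := by linarith
  have hneg : r (T (s (t0 + η))) < t0 + η := by
    rw [hb (t0 + η) (hsub ⟨le_rfl, hmid⟩) (by
      rw [add_sub_cancel_left, abs_of_pos hηpos]; linarith)]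
    linarith
  have hpos : t1 - η < r (T (s (t1 - η))) := by
    rw [hb' (t1 - η) (hsub ⟨hmid, le_rfl⟩) (by
      rw [show t1 - η - t1 = -η by ring, abs_neg, abs_of_pos hηpos]; linarith)]
    linarith
  set F : ℝ → ℝ := fun t => r (T (s t)) - t with hF
  have hFc : ContinuousOn F (Icc (t0 + η) (t1 - η)) := (h.contΦ.sub continuousOn_id).mono hsub
  -- the first zero
  set S : Set ℝ := Icc (t0 + η) (t1 - η) ∩ F ⁻¹' Ici 0 with hS
  have hScl : IsClosed S := hFc.preimage_isClosed_of_isClosed isClosed_Icc isClosed_Ici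
  have hSne : S.Nonempty := ⟨t1 - η, ⟨hmid, le_rfl⟩, by
    change 0 ≤ r (T (s (t1 - η))) - (t1 - η)
    linarith⟩
  have hSbd : BddBelow S := ⟨t0 + η, fun t ht => ht.1.1⟩
  set t2 := sInf S with ht2
  have ht2S : t2 ∈ S := hScl.csInf_mem hSne hSbd
  obtain ⟨⟨ha, hb2⟩, hc1⟩ := ht2S
  have hc1' : 0 ≤ r (T (s t2)) - t2 := hc1
  have hlt2 : t0 + η < t2 := by
    rcases lt_or_eq_of_le ha with h3 | h3
    · exact h3
    · rw [← h3] at hc1'
      linarith
  have hbelow : ∀ t, t0 + η ≤ t → t < t2 → F t < 0 := by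
    intro t h3 h4
    by_contra h5
    have : t ∈ S := ⟨⟨h3, by linarith⟩, not_lt.1 h5⟩
    have := csInf_le hSbd this
    linarith
  have hD1 : F t2 = 0 := by
    apply le_antisymm _ hc1
    have hcw : ContinuousWithinAt F (Ico (t0 + η) t2) t2 :=
      (hFc t2 ⟨ha, hb2⟩).mono (fun t ht => ⟨ht.1, ht.2.le.trans hb2⟩)
    have hne : (𝓝[Ico (t0 + η) t2] t2).NeBot := by
      rw [← mem_closure_iff_nhdsWithin_neBot, closure_Ico hlt2.ne]
      exact ⟨hlt2.le, le_rfl⟩
    exact le_of_tendsto hcw (by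
      filter_upwards [self_mem_nhdsWithin] with t ht
      exact (hbelow t ht.1 ht.2).le)
  have hD1' : r (T (s t2)) = t2 := by
    have : r (T (s t2)) - t2 = 0 := hD1
    linarith
  obtain ⟨ε1, hε1, hball1⟩ := h.at_zero (hsub ⟨ha, hb2⟩) hD1'
  set ζ := min (ε1 / 2) (t2 - (t0 + η)) with hζ
  have hζpos : 0 < ζ := lt_min (by linarith) (by linarith)
  have hζ1 : ζ ≤ ε1 / 2 := min_le_left _ _
  have hζ2 : ζ ≤ t2 - (t0 + η) := min_le_right _ _
  have h3 := hball1 (t2 - ζ) (hsub ⟨by linarith, by linarith⟩) (by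
    rw [show t2 - ζ - t2 = -ζ by ring, abs_neg, abs_of_pos hζpos]; linarith)
  have h4 := hbelow (t2 - ζ) (by linarith) (by linarith)
  have h5 : r (T (s (t2 - ζ))) - (t2 - ζ) < 0 := h4
  linarith

end Core

/-- The key statement: fixed points on every closed subarc. -/
theorem fixed_on_subarc {X : Type*} [MetricSpace X] {U : Set X} {r : X → ℝ} {s : ℝ → X}
    (hc : IsArcCore U r s) {a b : ℝ} (ha : 0 < a) (hab : a < b) (hb : b < 1) :
    ∃ B : ℝ, 0 < B ∧ ∀ T : X → X, Continuous T → DispBelow T B →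
      ∃ c ∈ Icc a b, T (s c) = s c := by
  obtain ⟨hU, hrU, hs, hcore⟩ := hc
  have hsub : Icc a b ⊆ Ioo (0 : ℝ) 1 := fun t ht => ⟨ha.trans_le ht.1, ht.2.trans_lt hb⟩
  have hsc : ContinuousOn s (Icc a b) := hs.mono hsub
  set K : Set X := s '' Icc a b with hK
  have hKc : IsCompact K := isCompact_Icc.image_of_continuousOn hsc
  have hKU : K ⊆ U := by
    rintro _ ⟨c, hc, rfl⟩
    exact (hcore c (hsub hc)).1
  set κ : ℝ := (b - a) / 12 with hκ
  have hκpos : 0 < κ := by
    rw [hκ]
    linarith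
  -- a radius which works along the compact subarc
  obtain ⟨δ1, hδ1, hδ1'⟩ := hKc.exists_thickening_subset_open hU hKU
  have hunif := hKc.uniformContinuousAt_of_continuousAt r
    (fun x hx => hrU.continuousAt (hU.mem_nhds (hKU hx))) (Metric.dist_mem_uniformity hκpos)
  obtain ⟨δ2, hδ2, hδ2'⟩ := Metric.mem_uniformity_dist.1 hunif
  have hB : ∀ c ∈ Icc a b, ∀ x, dist x (s c) < min δ1 δ2 → x ∈ U ∧ |r x - c| < κ := by
    intro c hc x hx
    have hcK : s c ∈ K := mem_image_of_mem s hc
    constructor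
    · apply hδ1'
      rw [Metric.mem_thickening_iff]
      exact ⟨s c, hcK, hx.trans_le (min_le_left _ _)⟩
    · have h1 : dist (s c) x < δ2 := by
        rw [dist_comm]
        exact hx.trans_le (min_le_right _ _)
      have h2 := hδ2' h1 hcK
      simp only [mem_ofPred_eq] at h2
      rw [(hcore c (hsub hc)).2.1, Real.dist_eq, abs_sub_comm] at h2
      exact h2
  refine ⟨min δ1 δ2, lt_min hδ1 hδ2, fun T hT hdisp => ?_⟩
  by_contra hcon
  push Not at hcon
  have hloc : Loc U r s T a b κ := by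
    refine ⟨hrU, hsc, hT, ?_, ?_, ?_, fun c hc => (hcore c (hsub hc)).2.2, hcon⟩
    · intro c hc
      exact (hB c hc _ (by simpa using hdisp 1 le_rfl (s c))).1
    · intro c hc
      exact (hB c hc _ (by simpa using hdisp 1 le_rfl (s c))).2
    · intro n hn c hc d hd hcd
      have h1 := (hB c hc _ (hdisp n hn (s c))).2
      rwa [hcd, (hcore d (hsub hd)).2.1] at h1
  obtain ⟨t0, ht0, hz0⟩ := (hloc.mono (a' := a) (b' := a + 4 * κ) le_rfl (by linarith)).exists_zero
    hκpos (by linarith)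
  obtain ⟨t1, ht1, hz1⟩ := (hloc.mono (a' := b - 4 * κ) (b' := b) (by linarith) le_rfl).exists_zero
    hκpos (by linarith)
  have hlt : t0 < t1 := by
    have h1 := ht0.2
    have h2 := ht1.1
    have h3 : b - a = 12 * κ := by rw [hκ]; ring
    linarith
  exact hloc.no_two_zeros ⟨ht0.1, by linarith [ht1.2]⟩ ⟨by linarith [ht0.1], ht1.2⟩ hlt hz0 hz1

/-- **Arcs with point attachments.**  If a metric space has an open arc with point attachments,
then it has property (F); more precisely every continuous self-map all of whose iterates have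
sufficiently small displacement has a fixed point on each prescribed closed subarc. -/
theorem result : ∀ (X : Type*) [MetricSpace X] (U : Set X) (r : X → ℝ) (s : ℝ → X),
    IsArcCore U r s → PropF X ∧ ∀ a b : ℝ, 0 < a → a < b → b < 1 →
      ∃ B : ℝ, 0 < B ∧ ∀ T : X → X, Continuous T → DispBelow T B →
        ∃ c ∈ Icc a b, T (s c) = s c := by
  intro X _ U r s hc
  refine ⟨?_, fun a b ha hab hb => fixed_on_subarc hc ha hab hb⟩
  obtain ⟨B, hB, h⟩ := fixed_on_subarc hc (a := 1 / 4) (b := 3 / 4) (by norm_num) (by norm_num)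
    (by norm_num)
  refine ⟨B, hB, fun T hT hd => ?_⟩
  obtain ⟨c, -, hc'⟩ := h T hT hd
  exact ⟨s c, hc'⟩

end Pool.Agent.Results.MP_98cb65_gt.ArcCore
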