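import Pool.Agent.Lib.P98.Main
import Pool.Agent.Lib.P98.Core

/-!
Property (F) (Ulam, Scottish Book, Problem 110) for locally connected continua of dimension one.

A locally connected continuum of dimension one has property (F) if and only if it has an open arc
with point attachments.  The definitions (`DispBelow`, `PropF`, `IsArcCore`, `DimLeOne`) are in
`Pool.Agent.Lib.P98.Defs`.
-/

namespace Pool.Agent.Results.MP_98cb65_gt.Dichotomy

open Set Topology Pool.Agent.Lib.P98

/-- **The dichotomy in dimension one.**  Let `X` be a locally connected continuum with more than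
one point and of dimension at most one.  Then `X` has property (F) if and only if there is an open
arc in `X` to which, locally, the rest of `X` is attached at single points.  If there is no such
arc, then for every `B > 0` there is a continuous self-map of `X` without fixed point all of whose
iterates move every point by less than `B`. -/
theorem result : ∀ (X : Type*) [MetricSpace X] [CompactSpace X] [ConnectedSpace X]
    [LocallyConnectedSpace X] [Nontrivial X], DimLeOne X →
    (PropF X ↔ ∃ (U : Set X) (r : X → ℝ) (s : ℝ → X), IsArcCore U r s) ∧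
    ((¬ ∃ (U : Set X) (r : X → ℝ) (s : ℝ → X), IsArcCore U r s) →
      ∀ B : ℝ, 0 < B → ∃ T : X → X, Continuous T ∧ (∀ x, T x ≠ x) ∧
        ∀ n : ℕ, 1 ≤ n → ∀ x : X, dist (T^[n] x) x < B) := by
  intro X _ _ _ _ _ hd
  have key : ¬ HasArcCore X → ∀ B : ℝ, 0 < B → ∃ T : X → X, Continuous T ∧ (∀ x, T x ≠ x) ∧
      DispBelow T B := fun hno B hB => not_propF hd hno hB
  refine ⟨⟨fun hF => ?_, fun h => propF_of_core h⟩, fun hno B hB => ?_⟩
  · by_contra hno
    obtain ⟨B, hB, h⟩ := hF
    obtain ⟨T, hT, hT', hTB⟩ := key hno B hB
    obtain ⟨x, hx⟩ := h T hT hTB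
    exact hT' x hx
  · exact key hno B hB

end Pool.Agent.Results.MP_98cb65_gt.Dichotomy
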