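import Mathlib

/-!
Property (F) (Ulam, Scottish Book, Problem 110) for tori and flat manifolds.

For every `n ≥ 1` the following are equivalent: the torus `T^n` has property (F); every continuous
self-map of `T^n` with iterate displacement below `1/3` (maximum metric, circles of length `1`) has
a fixed point; every metric space which is the target of a local homeomorphism from `T^n` (for
example every closed flat manifold) has property (F); every continuous map of `ℝ^n` which commutes
with the integer translations and whose iterates have uniformly bounded displacement has a fixed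
point; the same for those maps for which every ball lies in an invariant continuum.  The number
`1/3` cannot be replaced by a larger number.  For `n = 1` the statements hold.

Main points: small iterate displacement lifts through local homeomorphisms of compact spaces; if
`T x = x + δ x`, then `T_k x = x + δ (k x) / k` satisfies `k (T_k x) = T (k x)`, its iterates have
displacement at most `C / k`, and its fixed points give zeros of `δ`; a real number of absolute
value less than `2/3` whose class has norm less than `1/3` has absolute value less than `1/3`.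
-/

namespace Pool.Agent.Results.MP_98cb65_gt.FlatTori

open Topology Filter Set

/-- All iterates of `T` move every point by less than `B`. -/
def DispBelow {X : Type*} [MetricSpace X] (T : X → X) (B : ℝ) : Prop :=
  ∀ n : ℕ, 1 ≤ n → ∀ x : X, dist (T^[n] x) x < B

/-- Property (F): for some `B > 0`, every continuous self-map of `X` all of whose iterates move
every point by less than `B` has a fixed point. -/
def PropF (X : Type*) [MetricSpace X] : Prop :=
  ∃ B : ℝ, 0 < B ∧ ∀ T : X → X, Continuous T → DispBelow T B → ∃ x, T x = x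

/-! ### Local homeomorphisms -/

section Cover

variable {X Y : Type*} [MetricSpace X] [CompactSpace X] [MetricSpace Y] {p : X → Y}

theorem inj_radius (hp : IsLocalHomeomorph p) :
    ∃ r : ℝ, 0 < r ∧ ∀ x x' : X, dist x x' < r → p x = p x' → x = x' := by
  have hl := hp.isLocallyInjective
  choose U hU hxU hinj using hl
  obtain ⟨r, hr, h⟩ := lebesgue_number_lemma_of_metric (isCompact_univ (X := X)) hU
    (fun x _ => mem_iUnion.2 ⟨x, hxU x⟩)
  refine ⟨r, hr, fun x x' hd he => ?_⟩
  obtain ⟨i, hi⟩ := h x (mem_univ x)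
  exact hinj i (hi (Metric.mem_ball_self hr)) (hi (by rwa [Metric.mem_ball, dist_comm])) he

theorem unif_open (hp : IsLocalHomeomorph p) {ε : ℝ} (hε : 0 < ε) :
    ∃ B : ℝ, 0 < B ∧ ∀ (x : X) (y : Y), dist (p x) y < B → ∃ x', dist x' x < ε ∧ p x' = y := by
  have hc : Continuous p := hp.continuous
  suffices h : ∃ B : ℝ, 0 < B ∧ ∀ x ∈ (univ : Set X), ∀ y : Y, dist (p x) y < B →
      ∃ x', dist x' x < ε ∧ p x' = y by
    obtain ⟨B, hB, h⟩ := h
    exact ⟨B, hB, fun x y => h x (mem_univ x) y⟩
  refine isCompact_univ.induction_on (p := fun s => ∃ B : ℝ, 0 < B ∧ ∀ x ∈ s, ∀ y : Y,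
    dist (p x) y < B → ∃ x', dist x' x < ε ∧ p x' = y) ?_ ?_ ?_ ?_
  · exact ⟨1, one_pos, fun x hx => absurd hx (notMem_empty x)⟩
  · rintro s t hst ⟨B, hB, h⟩
    exact ⟨B, hB, fun x hx => h x (hst hx)⟩
  · rintro s t ⟨B, hB, h⟩ ⟨B', hB', h'⟩
    refine ⟨min B B', lt_min hB hB', fun x hx y hy => ?_⟩
    rcases hx with hx | hx
    · exact h x hx y (hy.trans_le (min_le_left _ _))
    · exact h' x hx y (hy.trans_le (min_le_right _ _))
  · intro x0 _
    have ho : IsOpen (p '' Metric.ball x0 (ε / 2)) := hp.isOpenMap _ Metric.isOpen_ball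
    obtain ⟨b, hb, hb'⟩ := Metric.isOpen_iff.1 ho (p x0)
      ⟨x0, Metric.mem_ball_self (by linarith), rfl⟩
    refine ⟨{x | dist x x0 < ε / 2 ∧ dist (p x) (p x0) < b / 2}, ?_, b / 2, by linarith, ?_⟩
    · apply mem_nhdsWithin_of_mem_nhds
      have h1 : ∀ᶠ x in 𝓝 x0, dist x x0 < ε / 2 := Metric.ball_mem_nhds x0 (by linarith)
      have h2 : ∀ᶠ x in 𝓝 x0, dist (p x) (p x0) < b / 2 :=
        hc.continuousAt.eventually (Metric.ball_mem_nhds (p x0) (by linarith))
      exact h1.and h2
    · rintro x ⟨h1, h2⟩ y hy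
      have h3 : y ∈ Metric.ball (p x0) b := by
        rw [Metric.mem_ball]
        have := dist_triangle y (p x) (p x0)
        rw [dist_comm y (p x)] at this
        linarith
      obtain ⟨x', hx', he⟩ := hb' h3
      refine ⟨x', ?_, he⟩
      rw [Metric.mem_ball] at hx'
      have := dist_triangle x' x0 x
      rw [dist_comm x0 x] at this
      linarith

/-- Lifting a self-map with small iterate displacement through a local homeomorphism. -/
theorem lift_map (hp : IsLocalHomeomorph p) {r ε B : ℝ} (hε : 0 < ε) (hε1 : 3 * ε ≤ r)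
    (hinj : ∀ x x' : X, dist x x' < r → p x = p x' → x = x')
    (hop : ∀ (x : X) (y : Y), dist (p x) y < B → ∃ x', dist x' x < ε ∧ p x' = y)
    (T : Y → Y) (hT : Continuous T) (hd : DispBelow T B) :
    ∃ S : X → X, Continuous S ∧ (∀ n x, p (S^[n] x) = T^[n] (p x)) ∧
      ∀ n x, dist (S^[n] x) x < ε := by
  have hc : Continuous p := hp.continuous
  have hlift : ∀ x : X, ∃ x', dist x' x < ε ∧ p x' = T (p x) := by
    intro x
    apply hop
    rw [dist_comm]
    exact hd 1 le_rfl (p x)
  choose S hS1 hS2 using hlift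
  have hcont : Continuous S := by
    rw [Metric.continuous_iff]
    intro x η hη
    set s : ℝ := ε - dist (S x) x with hs
    have hs0 : 0 < s := sub_pos.2 (hS1 x)
    obtain ⟨B2, hB2, hop2⟩ := unif_open hp (lt_min hη (half_pos hs0))
    have hTp : Continuous (fun x => T (p x)) := hT.comp hc
    obtain ⟨δ, hδ, hδ'⟩ := Metric.continuous_iff.1 hTp x B2 hB2
    refine ⟨min δ (s / 2), lt_min hδ (half_pos hs0), fun x1 hx1 => ?_⟩
    have h1 := hδ' x1 (hx1.trans_le (min_le_left _ _))
    have h2 : dist x1 x < s / 2 := hx1.trans_le (min_le_right _ _)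
    have h3 : dist (p (S x)) (T (p x1)) < B2 := by
      rw [hS2, dist_comm]
      exact h1
    obtain ⟨x', h4, h5⟩ := hop2 (S x) _ h3
    have h6 : dist x' (S x) < s / 2 := h4.trans_le (min_le_right _ _)
    have h7 : dist x' x1 < ε := by
      have t1 := dist_triangle x' (S x) x1
      have t2 := dist_triangle (S x) x x1
      rw [dist_comm x x1] at t2
      linarith
    have h8 : dist x' (S x1) < r := by
      have t1 := dist_triangle x' x1 (S x1)
      have t2 := hS1 x1
      rw [dist_comm x1 (S x1)] at t1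
      linarith
    have h9 : x' = S x1 := hinj _ _ h8 (by rw [h5, hS2])
    rw [← h9]
    exact h4.trans_le (min_le_left _ _)
  have hsemi : ∀ n : ℕ, ∀ x, p (S^[n] x) = T^[n] (p x) := by
    intro n
    induction n with
    | zero => intro x; rfl
    | succ n ih =>
      intro x
      rw [Function.iterate_succ_apply', Function.iterate_succ_apply', hS2, ih]
  have hsmall : ∀ n : ℕ, ∀ x, dist (S^[n] x) x < ε := by
    intro n
    induction n with
    | zero => intro x; simpa using hε
    | succ n ih =>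
      intro x
      have h1 : dist (p x) (T^[n + 1] (p x)) < B := by
        rw [dist_comm]
        exact hd (n + 1) (by omega) (p x)
      obtain ⟨x', h2, h3⟩ := hop x _ h1
      have h4 : dist (S^[n + 1] x) x < 2 * ε := by
        rw [Function.iterate_succ_apply']
        have t1 := dist_triangle (S (S^[n] x)) (S^[n] x) x
        have t2 := hS1 (S^[n] x)
        have t3 := ih x
        linarith
      have h5 : dist (S^[n + 1] x) x' < r := by
        have t1 := dist_triangle (S^[n + 1] x) x x'
        rw [dist_comm x x'] at t1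
        linarith
      have h6 : S^[n + 1] x = x' := hinj _ _ h5 (by rw [h3, hsemi])
      rw [h6]
      exact h2
  exact ⟨S, hcont, hsemi, hsmall⟩

theorem propF_of_localHomeo (hp : IsLocalHomeomorph p) (hX : PropF X) : PropF Y := by
  obtain ⟨BX, hBX, hF⟩ := hX
  obtain ⟨r, hr, hinj⟩ := inj_radius hp
  set ε : ℝ := min (r / 3) BX with hεdef
  have hε : 0 < ε := lt_min (by linarith) hBX
  have hε1 : 3 * ε ≤ r := by
    have := min_le_left (r / 3) BX
    linarith
  obtain ⟨B, hB, hop⟩ := unif_open hp hε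
  refine ⟨B, hB, fun T hT hd => ?_⟩
  obtain ⟨S, hcont, hsemi, hsmall⟩ := lift_map hp hε hε1 hinj hop T hT hd
  obtain ⟨x, hx⟩ := hF S hcont (fun n _ x => (hsmall n x).trans_le (min_le_right _ _))
  exact ⟨p x, by
    have := hsemi 1 x
    rw [Function.iterate_one, Function.iterate_one, hx] at this
    exact this.symm⟩

end Cover

/-! ### Tori -/

/-- The torus of dimension `n`, with the maximum metric of the circles of length `1`. -/
abbrev Torus (n : ℕ) : Type := Fin n → UnitAddCircle

/-- The map `x ↦ x + δ x` of the torus. -/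
def shift {n : ℕ} (δ : Torus n → Fin n → ℝ) (x : Torus n) : Torus n :=
  fun i => x i + ((δ x i : ℝ) : UnitAddCircle)

/-- The `m`-th Birkhoff sum of `δ` along the map `x ↦ x + δ x`. -/
noncomputable def birk {n : ℕ} (δ : Torus n → Fin n → ℝ) (m : ℕ) (x : Torus n) : Fin n → ℝ :=
  ∑ j ∈ Finset.range m, δ ((shift δ)^[j] x)

/-- the representative in the interval `(-1/2, 1/2]` -/
noncomputable def rep (t : UnitAddCircle) : ℝ := (AddCircle.equivIoc (1 : ℝ) (-1 / 2) t : ℝ)

theorem rep_mem (t : UnitAddCircle) : rep t ∈ Ioc (-1 / 2 : ℝ) (-1 / 2 + 1) :=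
  (AddCircle.equivIoc (1 : ℝ) (-1 / 2) t).2

theorem coe_rep (t : UnitAddCircle) : ((rep t : ℝ) : UnitAddCircle) = t :=
  (AddCircle.equivIoc (1 : ℝ) (-1 / 2)).symm_apply_apply t

theorem abs_rep (t : UnitAddCircle) : |rep t| = ‖t‖ := by
  have h := rep_mem t
  have h1 : |rep t| ≤ |(1 : ℝ)| / 2 := by
    rw [abs_one, abs_le]
    constructor <;> linarith [h.1, h.2]
  have h2 := (AddCircle.norm_coe_eq_abs_iff (p := (1 : ℝ)) (x := rep t) one_ne_zero).2 h1
  rw [← h2]
  congr 1
  exact coe_rep t

theorem continuousAt_rep {t : UnitAddCircle} (ht : ‖t‖ < 1 / 2) : ContinuousAt rep t := by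
  have hne : t ≠ ((-1 / 2 : ℝ) : UnitAddCircle) := by
    intro h
    have h1 : ‖(((-1 / 2 : ℝ)) : UnitAddCircle)‖ = |(-1 / 2 : ℝ)| :=
      (AddCircle.norm_coe_eq_abs_iff (p := (1 : ℝ)) one_ne_zero).2 (by norm_num [abs_le])
    rw [h, h1] at ht
    norm_num [abs_lt] at ht
  exact (continuous_subtype_val.continuousAt).comp
    (AddCircle.continuousAt_equivIoc (1 : ℝ) (-1 / 2) hne)


section Tor

variable {n : ℕ} {δ : Torus n → Fin n → ℝ}

theorem birk_succ (δ : Torus n → Fin n → ℝ) (m : ℕ) (x : Torus n) :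
    birk δ (m + 1) x = birk δ m x + δ ((shift δ)^[m] x) := by
  unfold birk
  rw [Finset.sum_range_succ]

theorem iter_eq (δ : Torus n → Fin n → ℝ) (m : ℕ) (x : Torus n) (i : Fin n) :
    (shift δ)^[m] x i = x i + ((birk δ m x i : ℝ) : UnitAddCircle) := by
  induction m with
  | zero => simp [birk]
  | succ m ih =>
    rw [Function.iterate_succ_apply', birk_succ]
    show (shift δ)^[m] x i + ((δ ((shift δ)^[m] x) i : ℝ) : UnitAddCircle) = _
    rw [ih, Pi.add_apply, AddCircle.coe_add, add_assoc]

theorem continuous_shift (hδ : Continuous δ) : Continuous (shift δ) := by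
  refine continuous_pi fun i => ?_
  exact (continuous_apply i).add
    ((AddCircle.continuous_mk' (1 : ℝ)).comp ((continuous_apply i).comp hδ))

theorem norm_coe_le (t : ℝ) : ‖(t : UnitAddCircle)‖ ≤ |t| := by
  rw [UnitAddCircle.norm_eq]
  have h := round_le t 0
  simpa using h

/-- `(a)` implies `(c)` -/
theorem zero_of_propF (h : PropF (Torus n)) (hδ : Continuous δ) {C : ℝ}
    (hC : ∀ m x i, |birk δ m x i| ≤ C) : ∃ x, δ x = 0 := by
  obtain ⟨B, hB, hF⟩ := h
  set C' : ℝ := max C 0 with hC'
  have hC'0 : 0 ≤ C' := le_max_right _ _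
  have hC1 : ∀ m x i, |birk δ m x i| ≤ C' := fun m x i => (hC m x i).trans (le_max_left _ _)
  obtain ⟨k, hk⟩ := exists_nat_gt (max (C' / B) C')
  have hk1 : C' / B < k := (le_max_left _ _).trans_lt hk
  have hk2 : C' < k := (le_max_right _ _).trans_lt hk
  have hk0 : (0 : ℝ) < k := hC'0.trans_lt hk2
  have hk3 : C' / k < B := by
    rw [div_lt_iff₀ hB] at hk1
    rw [div_lt_iff₀ hk0]
    linarith
  set δk : Torus n → Fin n → ℝ := fun x i => δ (k • x) i / k with hδk
  have hcδk : Continuous δk := by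
    refine continuous_pi fun i => ?_
    have h1 : Continuous (fun x : Torus n => k • x) := continuous_nsmul k
    exact ((continuous_apply i).comp (hδ.comp h1)).div_const _
  have hsemi1 : ∀ x, k • shift δk x = shift δ (k • x) := by
    intro x
    funext i
    show k • (x i + ((δ (k • x) i / k : ℝ) : UnitAddCircle)) =
      k • x i + ((δ (k • x) i : ℝ) : UnitAddCircle)
    rw [nsmul_add, ← AddCircle.coe_nsmul]
    congr 2
    rw [nsmul_eq_mul]
    field_simp
  have hsemi : ∀ m x, k • (shift δk)^[m] x = (shift δ)^[m] (k • x) := by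
    intro m
    induction m with
    | zero => intro x; rfl
    | succ m ih =>
      intro x
      rw [Function.iterate_succ_apply', Function.iterate_succ_apply', hsemi1, ih]
  have hb : ∀ m x i, birk δk m x i = birk δ m (k • x) i / k := by
    intro m x i
    unfold birk
    rw [Finset.sum_apply, Finset.sum_apply, Finset.sum_div]
    refine Finset.sum_congr rfl fun j _ => ?_
    show δ (k • (shift δk)^[j] x) i / k = _
    rw [hsemi]
  have hbb : ∀ m x i, |birk δk m x i| ≤ C' / k := by
    intro m x i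
    rw [hb, abs_div, abs_of_pos hk0]
    exact div_le_div_of_nonneg_right (hC1 m _ i) hk0.le
  obtain ⟨x, hx⟩ := hF (shift δk) (continuous_shift hcδk) (by
    intro m _ x
    rw [dist_pi_lt_iff hB]
    intro i
    rw [iter_eq, dist_eq_norm, add_sub_cancel_left]
    exact ((norm_coe_le _).trans (hbb m x i)).trans_lt hk3)
  refine ⟨k • x, ?_⟩
  funext i
  have h1 : x i + ((δk x i : ℝ) : UnitAddCircle) = x i := congrFun hx i
  have h2 : ((δk x i : ℝ) : UnitAddCircle) = 0 := by
    simpa using h1
  obtain ⟨z, hz⟩ := (AddCircle.coe_eq_zero_iff (1 : ℝ)).1 h2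
  have h3 : |δk x i| < 1 := by
    have h4 := hbb 1 x i
    have h5 : birk δk 1 x i = δk x i := by
      unfold birk
      simp
    rw [h5] at h4
    refine h4.trans_lt ?_
    rw [div_lt_one hk0]
    exact hk2
  rw [← hz] at h3
  have h6 : |(z : ℝ)| < 1 := by simpa using h3
  have h7 : |z| < 1 := by exact_mod_cast h6
  have h8 : z = 0 := Int.abs_lt_one_iff.1 h7
  rw [h8, zero_smul] at hz
  have h9 : δ (k • x) i / k = 0 := hz.symm
  rcases div_eq_zero_iff.1 h9 with h10 | h10
  · exact h10
  · exact absurd h10 hk0.ne'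

/-- a number with small class which is not too large is small -/
theorem abs_lt_third {t : ℝ} (h1 : |t| < 2 / 3) (h2 : ‖(t : UnitAddCircle)‖ < 1 / 3) :
    |t| < 1 / 3 := by
  rw [UnitAddCircle.norm_eq] at h2
  rw [abs_lt] at h1 h2
  set z := round t with hz
  have h3 : (z : ℝ) < 1 := by linarith
  have h4 : (-1 : ℝ) < z := by linarith
  have h5 : z < 1 := by exact_mod_cast h3
  have h6 : -1 < z := by exact_mod_cast h4
  have h7 : z = 0 := by omega
  rw [h7] at h2
  rw [abs_lt]
  constructor
  · have := h2.1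
    push_cast at this
    linarith
  · have := h2.2
    push_cast at this
    linarith

/-- `(c)` implies `(b)` -/
theorem fixed_of_zero
    (h : ∀ δ : Torus n → Fin n → ℝ, Continuous δ → (∃ C : ℝ, ∀ m x i, |birk δ m x i| ≤ C) →
      ∃ x, δ x = 0)
    (T : Torus n → Torus n) (hT : Continuous T) (hd : DispBelow T (1 / 3)) : ∃ x, T x = x := by
  have hsm : ∀ m : ℕ, 1 ≤ m → ∀ x i, ‖T^[m] x i - x i‖ < 1 / 3 := by
    intro m hm x i
    rw [← dist_eq_norm]
    exact (dist_le_pi_dist _ _ i).trans_lt (hd m hm x)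
  set δ : Torus n → Fin n → ℝ := fun x i => rep (T x i - x i) with hδ
  have hcδ : Continuous δ := by
    refine continuous_pi fun i => ?_
    rw [continuous_iff_continuousAt]
    intro x
    have h1 : ‖T x i - x i‖ < 1 / 2 := (hsm 1 le_rfl x i).trans (by norm_num)
    have h2 : ContinuousAt (fun x : Torus n => T x i - x i) x :=
      (((continuous_apply i).comp hT).sub (continuous_apply i)).continuousAt
    exact ContinuousAt.comp (f := fun x : Torus n => T x i - x i) (g := rep)
      (continuousAt_rep h1) h2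
  have hsh : shift δ = T := by
    funext x i
    show x i + ((rep (T x i - x i) : ℝ) : UnitAddCircle) = T x i
    rw [coe_rep]
    abel
  have hb : ∀ m x i, |birk δ m x i| < 1 / 3 := by
    intro m
    induction m with
    | zero =>
      intro x i
      have : birk δ 0 x i = 0 := by simp [birk]
      rw [this, abs_zero]
      norm_num
    | succ m ih =>
      intro x i
      apply abs_lt_third
      · rw [birk_succ, Pi.add_apply]
        have h1 := ih x i
        have h2 : |δ ((shift δ)^[m] x) i| < 1 / 3 := by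
          show |rep _| < 1 / 3
          rw [abs_rep]
          exact hsm 1 le_rfl _ i
        have h3 := abs_add_le (birk δ m x i) (δ ((shift δ)^[m] x) i)
        linarith
      · have h1 := iter_eq δ (m + 1) x i
        have h2 := hsm (m + 1) (by omega) x i
        rw [← hsh, h1, add_sub_cancel_left] at h2
        exact h2
  obtain ⟨x, hx⟩ := h δ hcδ ⟨1 / 3, fun m x i => (hb m x i).le⟩
  refine ⟨x, ?_⟩
  funext i
  have h1 : shift δ x i = T x i := by rw [hsh]
  rw [← h1]
  show x i + ((δ x i : ℝ) : UnitAddCircle) = x i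
  rw [hx]
  simp

/-- the projection onto the torus -/
def pr (x : Fin n → ℝ) : Torus n := fun i => ((x i : ℝ) : UnitAddCircle)

theorem quot_pr : IsOpenQuotientMap (pr (n := n)) := by
  have h : ∀ _ : Fin n, IsOpenQuotientMap (fun t : ℝ => (t : UnitAddCircle)) :=
    fun _ => QuotientAddGroup.isOpenQuotientMap_mk
  exact IsOpenQuotientMap.piMap h

theorem pr_eq_iff {x y : Fin n → ℝ} :
    pr x = pr y ↔ ∃ z : Fin n → ℤ, y = x + (fun i => (z i : ℝ)) := by
  constructor
  · intro h
    have h1 : ∀ i, ∃ z : ℤ, (z : ℝ) = y i - x i := by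
      intro i
      have h2 : ((x i : ℝ) : UnitAddCircle) = ((y i : ℝ) : UnitAddCircle) := congrFun h i
      have h3 : ((y i - x i : ℝ) : UnitAddCircle) = 0 := by
        rw [AddCircle.coe_sub, h2, sub_self]
      obtain ⟨z, hz⟩ := (AddCircle.coe_eq_zero_iff (1 : ℝ)).1 h3
      exact ⟨z, by simpa using hz⟩
    choose z hz using h1
    refine ⟨z, ?_⟩
    funext i
    rw [Pi.add_apply, hz]
    ring
  · rintro ⟨z, rfl⟩
    funext i
    show ((x i : ℝ) : UnitAddCircle) = ((x i + (z i : ℝ) : ℝ) : UnitAddCircle)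
    rw [AddCircle.coe_add]
    have h5 : (((z i : ℤ) : ℝ) : UnitAddCircle) = 0 :=
      (AddCircle.coe_eq_zero_iff (1 : ℝ)).2 ⟨z i, by simp⟩
    rw [h5, add_zero]

/-- The statement on equivariant maps of `ℝ^n`. -/
def Equi (n : ℕ) : Prop :=
  ∀ f : (Fin n → ℝ) → (Fin n → ℝ), Continuous f →
    (∀ (x : Fin n → ℝ) (z : Fin n → ℤ), f (x + fun i => (z i : ℝ)) = f x + fun i => (z i : ℝ)) →
    (∃ C : ℝ, ∀ (m : ℕ) (x : Fin n → ℝ), dist (f^[m] x) x ≤ C) → ∃ x, f x = x

theorem zero_of_equi (h : Equi n) (hδ : Continuous δ) {C : ℝ}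
    (hC : ∀ m x i, |birk δ m x i| ≤ C) : ∃ x, δ x = 0 := by
  set f : (Fin n → ℝ) → (Fin n → ℝ) := fun x => x + δ (pr x) with hf
  have hprf : ∀ x, pr (f x) = shift δ (pr x) := by
    intro x
    funext i
    show ((x i + δ (pr x) i : ℝ) : UnitAddCircle) = _
    rw [AddCircle.coe_add]
    rfl
  have hpr : ∀ m x, pr (f^[m] x) = (shift δ)^[m] (pr x) := by
    intro m
    induction m with
    | zero => intro x; rfl
    | succ m ih =>
      intro x
      rw [Function.iterate_succ_apply', Function.iterate_succ_apply', hprf, ih]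
  have hit : ∀ m x, f^[m] x = x + birk δ m (pr x) := by
    intro m
    induction m with
    | zero => intro x; simp [birk]
    | succ m ih =>
      intro x
      rw [Function.iterate_succ_apply', birk_succ, ← add_assoc, ← ih, ← hpr]
  obtain ⟨x, hx⟩ := h f (continuous_id.add (hδ.comp quot_pr.continuous)) (by
    intro x z
    have h1 : pr (x + fun i => (z i : ℝ)) = pr x := (pr_eq_iff.2 ⟨z, rfl⟩).symm
    show x + (fun i => (z i : ℝ)) + δ (pr (x + fun i => (z i : ℝ))) = x + δ (pr x) + _
    rw [h1]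
    abel) ⟨max C 0, by
    intro m x
    rw [dist_pi_le_iff (le_max_right _ _)]
    intro i
    rw [hit, Real.dist_eq, Pi.add_apply, add_sub_cancel_left]
    exact (hC m _ i).trans (le_max_left _ _)⟩
  refine ⟨pr x, ?_⟩
  have h2 : x + δ (pr x) = x := hx
  simpa using h2

theorem equi_of_zero
    (h : ∀ δ : Torus n → Fin n → ℝ, Continuous δ → (∃ C : ℝ, ∀ m x i, |birk δ m x i| ≤ C) →
      ∃ x, δ x = 0) : Equi n := by
  intro f hf heq ⟨C, hC⟩
  set δ : Torus n → Fin n → ℝ := fun t => f (fun i => rep (t i)) - (fun i => rep (t i)) with hδ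
  have hδpr : ∀ x, δ (pr x) = f x - x := by
    intro x
    have h1 : pr (fun i => rep (pr x i)) = pr x := by
      funext i
      exact coe_rep _
    have key : ∀ w : Fin n → ℝ, pr w = pr x → f w - w = f x - x := by
      intro w hw
      obtain ⟨z, hz⟩ := pr_eq_iff.1 hw
      rw [hz, heq]
      abel
    exact key _ h1
  have hcδ : Continuous δ := by
    rw [quot_pr.isQuotientMap.continuous_iff]
    have h1 : δ ∘ pr = fun x => f x - x := by
      funext x
      exact hδpr x
    rw [h1]
    exact hf.sub continuous_id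
  have hprf : ∀ x, pr (f x) = shift δ (pr x) := by
    intro x
    funext i
    show ((f x i : ℝ) : UnitAddCircle) = ((x i : ℝ) : UnitAddCircle) +
      ((δ (pr x) i : ℝ) : UnitAddCircle)
    rw [← AddCircle.coe_add, hδpr, Pi.sub_apply]
    congr 1
    ring
  have hpr : ∀ m x, pr (f^[m] x) = (shift δ)^[m] (pr x) := by
    intro m
    induction m with
    | zero => intro x; rfl
    | succ m ih =>
      intro x
      rw [Function.iterate_succ_apply', Function.iterate_succ_apply', hprf, ih]
  have hit : ∀ m x, birk δ m (pr x) = f^[m] x - x := by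
    intro m
    induction m with
    | zero => intro x; simp [birk]
    | succ m ih =>
      intro x
      rw [birk_succ, ih, ← hpr, hδpr, Function.iterate_succ_apply']
      abel
  obtain ⟨t, ht⟩ := h δ hcδ ⟨C, by
    intro m t i
    obtain ⟨x, rfl⟩ := quot_pr.surjective t
    rw [hit, Pi.sub_apply, ← Real.dist_eq]
    exact (dist_le_pi_dist _ _ i).trans (hC m x)⟩
  obtain ⟨x, rfl⟩ := quot_pr.surjective t
  refine ⟨x, ?_⟩
  rw [hδpr] at ht
  exact sub_eq_zero.1 ht

/-- dimension one -/
theorem equi_one : Equi 1 := by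
  apply equi_of_zero
  intro δ hδ ⟨C, hC⟩
  by_contra hcon
  push Not at hcon
  have hne : ∀ x, δ x 0 ≠ 0 := by
    intro x hx
    apply hcon x
    funext i
    rw [Subsingleton.elim i 0]
    exact hx
  have hc0 : Continuous (fun x : Torus 1 => δ x 0) := (continuous_apply 0).comp hδ
  have habs : Continuous (fun x : Torus 1 => |δ x 0|) := hc0.abs
  obtain ⟨x0, -, hx0⟩ := isCompact_univ.exists_isMinOn (univ_nonempty (α := Torus 1))
    habs.continuousOn
  set c := |δ x0 0| with hcdef
  have hcpos : 0 < c := abs_pos.2 (hne x0)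
  have hmin : ∀ x, c ≤ |δ x 0| := fun x => hx0 (mem_univ x)
  have hsign : (∀ x, 0 < δ x 0) ∨ ∀ x, δ x 0 < 0 := by
    by_contra hs
    push Not at hs
    obtain ⟨⟨x, hx⟩, y, hy⟩ := hs
    obtain ⟨z, hz⟩ := mem_range_of_exists_le_of_exists_ge hc0 ⟨x, hx⟩ ⟨y, hy⟩
    exact hne z hz
  have hbig : ∀ m : ℕ, ∀ x : Torus 1, (m : ℝ) * c ≤ |birk δ m x 0| := by
    intro m x
    unfold birk
    rw [Finset.sum_apply]
    rcases hsign with hs | hs
    · have h1 : (m : ℝ) * c ≤ ∑ j ∈ Finset.range m, δ ((shift δ)^[j] x) 0 := by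
        have h2 := Finset.card_nsmul_le_sum (Finset.range m)
          (fun j => δ ((shift δ)^[j] x) 0) c (fun j _ => by
            have h3 := hmin ((shift δ)^[j] x)
            rwa [abs_of_pos (hs _)] at h3)
        rwa [Finset.card_range, nsmul_eq_mul] at h2
      exact h1.trans (le_abs_self _)
    · have h1 : (m : ℝ) * c ≤ ∑ j ∈ Finset.range m, -δ ((shift δ)^[j] x) 0 := by
        have h2 := Finset.card_nsmul_le_sum (Finset.range m)
          (fun j => -δ ((shift δ)^[j] x) 0) c (fun j _ => by
            have h3 := hmin ((shift δ)^[j] x)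
            rwa [abs_of_neg (hs _)] at h3)
        rwa [Finset.card_range, nsmul_eq_mul] at h2
      rw [Finset.sum_neg_distrib] at h1
      exact h1.trans (neg_le_abs _)
  obtain ⟨m, hm⟩ := exists_nat_gt (C / c)
  rw [div_lt_iff₀ hcpos] at hm
  have h1 := hbig m x0
  have h2 := hC m x0 0
  linarith

/-- The translation by a third in all coordinates. -/
theorem third (hn : 1 ≤ n) {B : ℝ} (hB : 1 / 3 < B) :
    ∃ T : Torus n → Torus n, Continuous T ∧ DispBelow T B ∧ ∀ x, T x ≠ x := by
  have hit : ∀ (m : ℕ) (x : Torus n) (i : Fin n),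
      (shift (fun _ _ => (1 / 3 : ℝ)))^[m] x i = x i + (((m : ℝ) / 3 : ℝ) : UnitAddCircle) := by
    intro m x i
    rw [iter_eq]
    congr 2
    unfold birk
    rw [Finset.sum_apply, Finset.sum_const, Finset.card_range, nsmul_eq_mul]
    ring
  refine ⟨shift (fun _ _ => (1 / 3 : ℝ)), continuous_shift (by fun_prop), ?_, ?_⟩
  · intro m _ x
    have hB0 : 0 < B := by linarith
    rw [dist_pi_lt_iff hB0]
    intro i
    rw [hit, dist_eq_norm, add_sub_cancel_left]
    refine lt_of_le_of_lt ?_ hB
    obtain ⟨q, r, hr, hqr⟩ : ∃ q r : ℤ, |r| ≤ 1 ∧ (m : ℤ) = 3 * q + r := by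
      have h1 : (m : ℤ) % 3 = 0 ∨ (m : ℤ) % 3 = 1 ∨ (m : ℤ) % 3 = 2 := by omega
      rcases h1 with h1 | h1 | h1
      · exact ⟨m / 3, 0, by norm_num, by omega⟩
      · exact ⟨m / 3, 1, by norm_num, by omega⟩
      · exact ⟨m / 3 + 1, -1, by norm_num, by omega⟩
    have h2 : (((m : ℝ) / 3 : ℝ) : UnitAddCircle) = ((((r : ℤ) : ℝ) / 3 : ℝ) : UnitAddCircle) := by
      have h3 : (m : ℝ) / 3 = (r : ℝ) / 3 + (q : ℝ) := by
        have h4 : (m : ℝ) = 3 * (q : ℝ) + (r : ℝ) := by exact_mod_cast hqr
        rw [h4]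
        ring
      rw [h3, AddCircle.coe_add]
      have h5 : (((q : ℤ) : ℝ) : UnitAddCircle) = 0 :=
        (AddCircle.coe_eq_zero_iff (1 : ℝ)).2 ⟨q, by simp⟩
      rw [h5, add_zero]
    rw [h2]
    refine (norm_coe_le _).trans ?_
    rw [abs_div]
    have h6 : |(r : ℝ)| ≤ 1 := by exact_mod_cast hr
    rw [abs_of_pos (by norm_num : (0 : ℝ) < 3)]
    linarith
  · intro x hx
    have h1 := congrFun hx ⟨0, hn⟩
    have h2 := hit 1 x ⟨0, hn⟩
    rw [Function.iterate_one, h1] at h2
    have h3 : ((((1 : ℕ) : ℝ) / 3 : ℝ) : UnitAddCircle) = 0 := by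
      have := h2.symm
      simpa using this
    obtain ⟨z, hz⟩ := (AddCircle.coe_eq_zero_iff (1 : ℝ)).1 h3
    have h4 : (3 : ℝ) * (z : ℝ) = 1 := by
      have : (z : ℝ) = 1 / 3 := by simpa using hz
      rw [this]
      norm_num
    have h5 : (3 : ℤ) * z = 1 := by exact_mod_cast h4
    omega

end Tor

/-! ### Invariant continua -/

/-- If all iterates of `f` have displacement at most `C`, then every ball lies in a continuum which
`f` maps into itself. -/
theorem exists_continuum {n : ℕ} (f : (Fin n → ℝ) → (Fin n → ℝ)) (hf : Continuous f) {C : ℝ}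
    (hC : ∀ (m : ℕ) (x : Fin n → ℝ), dist (f^[m] x) x ≤ C) (R : ℝ) :
    ∃ Y : Set (Fin n → ℝ), IsCompact Y ∧ IsConnected Y ∧ Metric.closedBall 0 R ⊆ Y ∧
      MapsTo f Y Y := by
  have hC0 : 0 ≤ C := dist_nonneg.trans (hC 0 0)
  set R' : ℝ := max R C with hR'
  have hR'0 : 0 ≤ R' := hC0.trans (le_max_right _ _)
  set E : Set (Fin n → ℝ) := Metric.closedBall 0 R' with hE
  have hEconn : IsConnected E :=
    (convex_closedBall (0 : Fin n → ℝ) R').isConnected (Metric.nonempty_closedBall.2 hR'0)
  have h0E : (0 : Fin n → ℝ) ∈ E := Metric.mem_closedBall_self hR'0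
  set S : Set (Fin n → ℝ) := ⋃ m : ℕ, (E ∪ f^[m] '' E) with hS
  have hSsub : S ⊆ Metric.closedBall 0 (C + R') := by
    have hEsub : ∀ w ∈ E, ∀ m, f^[m] w ∈ Metric.closedBall (0 : Fin n → ℝ) (C + R') := by
      intro w hw m
      rw [hE, Metric.mem_closedBall] at hw
      rw [Metric.mem_closedBall]
      exact (dist_triangle _ w _).trans (add_le_add (hC m w) hw)
    rw [hS, iUnion_subset_iff]
    intro m
    rintro w (hw | ⟨v, hv, rfl⟩)
    · exact hEsub w hw 0
    · exact hEsub v hv m
  have hSconn : IsConnected S := by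
    refine ⟨⟨0, mem_iUnion.2 ⟨0, Or.inl h0E⟩⟩, ?_⟩
    apply isPreconnected_iUnion
    · exact ⟨0, mem_iInter.2 fun m => Or.inl h0E⟩
    · intro m
      have h1 : f^[m] 0 ∈ E := by
        rw [hE, Metric.mem_closedBall]
        exact (hC m 0).trans (le_max_right _ _)
      exact IsPreconnected.union (f^[m] 0) h1 (mem_image_of_mem _ h0E) hEconn.isPreconnected
        (hEconn.isPreconnected.image _ (hf.iterate m).continuousOn)
  have hSmaps : MapsTo f S S := by
    intro w hw
    obtain ⟨m, hw⟩ := mem_iUnion.1 hw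
    rcases hw with hw | ⟨v, hv, rfl⟩
    · exact mem_iUnion.2 ⟨1, Or.inr ⟨w, hw, rfl⟩⟩
    · exact mem_iUnion.2 ⟨m + 1, Or.inr ⟨v, hv, Function.iterate_succ_apply' f m v⟩⟩
  have hcomp : IsCompact (closure S) :=
    (isCompact_closedBall (0 : Fin n → ℝ) (C + R')).of_isClosed_subset isClosed_closure
      (closure_minimal hSsub Metric.isClosed_closedBall)
  refine ⟨closure S, hcomp, hSconn.closure, ?_, hSmaps.closure hf⟩
  intro x hx
  apply subset_closure
  refine mem_iUnion.2 ⟨0, Or.inl ?_⟩
  rw [hE, Metric.mem_closedBall]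
  rw [Metric.mem_closedBall] at hx
  exact hx.trans (le_max_left _ _)

/-- The statement on equivariant maps of `ℝ^n` with large invariant continua. -/
def EquiCont (n : ℕ) : Prop :=
  ∀ f : (Fin n → ℝ) → (Fin n → ℝ), Continuous f →
    (∀ (x : Fin n → ℝ) (z : Fin n → ℤ), f (x + fun i => (z i : ℝ)) = f x + fun i => (z i : ℝ)) →
    (∃ C : ℝ, ∀ (m : ℕ) (x : Fin n → ℝ), dist (f^[m] x) x ≤ C) →
    (∀ R : ℝ, ∃ Y : Set (Fin n → ℝ), IsCompact Y ∧ IsConnected Y ∧ Metric.closedBall 0 R ⊆ Y ∧
      MapsTo f Y Y) → ∃ x, f x = x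

/-- **Property (F) for tori and flat manifolds.** -/
theorem result : ∀ n : ℕ, 1 ≤ n →
    List.TFAE
      [PropF (Torus n),
        ∀ T : Torus n → Torus n, Continuous T → DispBelow T (1 / 3) → ∃ x, T x = x,
        ∀ (M : Type) [MetricSpace M] (p : Torus n → M), IsLocalHomeomorph p → PropF M,
        Equi n,
        EquiCont n] ∧
    (∀ B : ℝ, 1 / 3 < B →
      ∃ T : Torus n → Torus n, Continuous T ∧ DispBelow T B ∧ ∀ x, T x ≠ x) ∧
    Equi 1 := by
  intro n hn
  refine ⟨?_, fun B hB => third hn hB, equi_one⟩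
  tfae_have 1 → 4 := fun h => equi_of_zero fun δ hδ ⟨C, hC⟩ => zero_of_propF h hδ hC
  tfae_have 4 → 2 := fun h T hT hd =>
    fixed_of_zero (fun δ hδ ⟨C, hC⟩ => zero_of_equi h hδ hC) T hT hd
  tfae_have 2 → 1 := fun h => ⟨1 / 3, by norm_num, h⟩
  tfae_have 1 → 3 := fun h M _ p hp => propF_of_localHomeo hp h
  tfae_have 3 → 1 := fun h => h (Torus n) id (Homeomorph.refl _).isLocalHomeomorph
  tfae_have 4 → 5 := fun h f hf heq hC _ => h f hf heq hC
  tfae_have 5 → 4 := fun h f hf heq hC => h f hf heq hC fun R => by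
    obtain ⟨C, hC⟩ := hC
    exact exists_continuum f hf hC R
  tfae_finish

end Pool.Agent.Results.MP_98cb65_gt.FlatTori
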