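import Mathlib

/-!
The Sierpinski gasket does not have property (F) (Ulam, Scottish Book, Problem 110).
-/

namespace Pool.Agent.Results.MP_98cb65_gt.Gasket

open Topology Filter Set

/-- All iterates of `T` move every point by less than `B`. -/
def DispBelow {X : Type*} [MetricSpace X] (T : X → X) (B : ℝ) : Prop :=
  ∀ n : ℕ, 1 ≤ n → ∀ x : X, dist (T^[n] x) x < B

/-- Property (F): for some `B > 0`, every continuous self-map of `X` all of whose iterates move
every point by less than `B` has a fixed point. -/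
def PropF (X : Type*) [MetricSpace X] : Prop :=
  ∃ B : ℝ, 0 < B ∧ ∀ T : X → X, Continuous T → DispBelow T B → ∃ x, T x = x

/-- The vertices of the standard triangle in `ℝ³`. -/
def q (i : Fin 3) : Fin 3 → ℝ := fun j => if j = i then 1 else 0

/-- The three contractions by the factor `1/2` towards the vertices. -/
noncomputable def f (i : Fin 3) (p : Fin 3 → ℝ) : Fin 3 → ℝ := fun j => (p j + q i j) / 2

/-- The triangle with the vertices `q 0`, `q 1`, `q 2`. -/
def tri : Set (Fin 3 → ℝ) := {p | (∀ j, 0 ≤ p j) ∧ p 0 + p 1 + p 2 = 1}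

/-- The stages of the construction of the gasket. -/
def stage : ℕ → Set (Fin 3 → ℝ)
  | 0 => tri
  | n + 1 => ⋃ i, f i '' stage n

/-- The Sierpinski gasket. -/
def gasket : Set (Fin 3 → ℝ) := ⋂ n, stage n

/-! ### Elementary facts -/

theorem f_apply (i : Fin 3) (p : Fin 3 → ℝ) (j : Fin 3) : f i p j = (p j + q i j) / 2 := rfl

theorem q_self (i : Fin 3) : q i i = 1 := by simp [q]

theorem q_ne {i j : Fin 3} (h : j ≠ i) : q i j = 0 := by simp [q, h]

theorem q_nonneg (i j : Fin 3) : 0 ≤ q i j := by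
  unfold q
  split_ifs <;> norm_num

theorem q_inj {i j : Fin 3} (h : q i = q j) : i = j := by
  by_contra hne
  have := congrFun h i
  rw [q_self, q_ne hne] at this
  norm_num at this

theorem f_inj {i : Fin 3} {p p' : Fin 3 → ℝ} (h : f i p = f i p') : p = p' := by
  funext j
  have := congrFun h j
  simp only [f_apply] at this
  linarith

theorem f_cont (i : Fin 3) : Continuous (f i) :=
  continuous_pi fun j => ((continuous_apply j).add continuous_const).div_const 2

theorem f_q (i j : Fin 3) : f i (q j) = f j (q i) := by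
  funext k
  simp only [f_apply]
  rw [add_comm]

theorem f_q_self (i : Fin 3) : f i (q i) = q i := by
  funext k
  simp only [f_apply]
  ring

theorem sum_q (i : Fin 3) : q i 0 + q i 1 + q i 2 = 1 := by
  fin_cases i <;> simp [q]

theorem q_mem_tri (i : Fin 3) : q i ∈ tri := ⟨q_nonneg i, sum_q i⟩

theorem f_mem_tri {i : Fin 3} {p : Fin 3 → ℝ} (h : p ∈ tri) : f i p ∈ tri := by
  refine ⟨fun j => ?_, ?_⟩
  · have := h.1 j
    have := q_nonneg i j
    rw [f_apply]
    linarith
  · have := h.2
    have := sum_q i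
    simp only [f_apply]
    linarith

theorem tri_le_one {p : Fin 3 → ℝ} (h : p ∈ tri) (j : Fin 3) : p j ≤ 1 := by
  have h0 := h.1 0
  have h1 := h.1 1
  have h2 := h.1 2
  have h3 := h.2
  fin_cases j
  · change p 0 ≤ 1
    linarith
  · change p 1 ≤ 1
    linarith
  · change p 2 ≤ 1
    linarith

/-- a point of the triangle with a coordinate equal to `1` is a vertex -/
theorem eq_q_of {p : Fin 3 → ℝ} (h : p ∈ tri) {a : Fin 3} (ha : p a = 1) : p = q a := by
  have h0 := h.1 0
  have h1 := h.1 1
  have h2 := h.1 2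
  have h3 := h.2
  funext j
  fin_cases a <;> fin_cases j <;> simp [q] at ha ⊢ <;> linarith

theorem ext1 {i a : Fin 3} {p : Fin 3 → ℝ} (hp : p ∈ tri) (h : f i p = q a) :
    i = a ∧ p = q a := by
  have h1 := congrFun h a
  rw [f_apply, q_self] at h1
  have h2 := tri_le_one hp a
  have hia : i = a := by
    by_contra hne
    rw [q_ne (fun h => hne h.symm)] at h1
    linarith
  subst hia
  rw [q_self] at h1
  exact ⟨rfl, eq_q_of hp (by linarith)⟩

theorem inter1 {i j : Fin 3} {p p' : Fin 3 → ℝ} (hij : i ≠ j) (hp : p ∈ tri) (hp' : p' ∈ tri)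
    (h : f i p = f j p') : p = q j ∧ p' = q i := by
  have h1 := congrFun h i
  have h2 := congrFun h j
  rw [f_apply, f_apply, q_self, q_ne hij] at h1
  rw [f_apply, f_apply, q_self, q_ne hij.symm] at h2
  have h3 := hp.1 i
  have h4 := hp'.1 j
  have h5 := tri_le_one hp j
  have h6 := tri_le_one hp' i
  exact ⟨eq_q_of hp (by linarith), eq_q_of hp' (by linarith)⟩

/-! ### Words -/

/-- The contraction which belongs to a word. -/
noncomputable def F (w : List (Fin 3)) (p : Fin 3 → ℝ) : Fin 3 → ℝ := w.foldr f p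

theorem F_nil (p : Fin 3 → ℝ) : F [] p = p := rfl

theorem F_cons (i : Fin 3) (w : List (Fin 3)) (p : Fin 3 → ℝ) : F (i :: w) p = f i (F w p) := rfl

theorem F_inj {w : List (Fin 3)} {p p' : Fin 3 → ℝ} (h : F w p = F w p') : p = p' := by
  induction w with
  | nil => exact h
  | cons i w ih => exact ih (f_inj h)

theorem F_cont (w : List (Fin 3)) : Continuous (F w) := by
  induction w with
  | nil => exact continuous_id
  | cons i w ih => exact (f_cont i).comp ih

theorem F_mem_tri {w : List (Fin 3)} {p : Fin 3 → ℝ} (h : p ∈ tri) : F w p ∈ tri := by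
  induction w with
  | nil => exact h
  | cons i w ih => exact f_mem_tri ih

theorem F_ext {w : List (Fin 3)} {p : Fin 3 → ℝ} {a : Fin 3} (hp : p ∈ tri) (h : F w p = q a) :
    p = q a := by
  induction w with
  | nil => exact h
  | cons i w ih => exact ih (ext1 (F_mem_tri hp) h).2

/-- Two different cells of the same level meet in at most one point, a vertex of both. -/
theorem inter : ∀ (w w' : List (Fin 3)), w.length = w'.length → w ≠ w' → ∀ p p' : Fin 3 → ℝ,
    p ∈ tri → p' ∈ tri → F w p = F w' p' → ∃ a b, p = q a ∧ p' = q b := by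
  intro w
  induction w with
  | nil =>
    intro w' hl hne
    exact absurd (List.length_eq_zero_iff.1 hl.symm).symm hne
  | cons i w ih =>
    intro w' hl hne p p' hp hp' h
    cases w' with
    | nil => simp at hl
    | cons j w' =>
      rw [F_cons, F_cons] at h
      by_cases hij : i = j
      · subst hij
        refine ih w' (by simpa using hl) (fun hh => hne (by rw [hh])) p p' hp hp' (f_inj h)
      · obtain ⟨h1, h2⟩ := inter1 hij (F_mem_tri hp) (F_mem_tri hp') h
        exact ⟨j, i, F_ext hp h1, F_ext hp' h2⟩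

/-- The inverse of the contraction of a word. -/
noncomputable def Fi (w : List (Fin 3)) (x : Fin 3 → ℝ) : Fin 3 → ℝ :=
  w.foldl (fun y i => fun j => 2 * y j - q i j) x

theorem Fi_cont : ∀ (w : List (Fin 3)), Continuous (Fi w) := by
  intro w
  induction w with
  | nil => exact continuous_id
  | cons i w ih =>
    exact ih.comp (continuous_pi fun j => ((continuous_apply j).const_mul 2).sub continuous_const)

theorem Fi_F : ∀ (w : List (Fin 3)) (p : Fin 3 → ℝ), Fi w (F w p) = p := by
  intro w
  induction w with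
  | nil => intro p; rfl
  | cons i w ih =>
    intro p
    have : (fun j => 2 * F (i :: w) p j - q i j) = F w p := by
      funext j
      rw [F_cons, f_apply]
      ring
    change Fi w (fun j => 2 * F (i :: w) p j - q i j) = p
    rw [this, ih]

/-! ### The gasket -/

theorem stage_succ_subset (n : ℕ) : stage (n + 1) ⊆ stage n := by
  induction n with
  | zero =>
    intro x hx
    simp only [stage, mem_iUnion] at hx ⊢
    obtain ⟨i, p, hp, rfl⟩ := hx
    exact f_mem_tri hp
  | succ n ih =>
    intro x hx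
    rw [stage, mem_iUnion] at hx ⊢
    obtain ⟨i, p, hp, rfl⟩ := hx
    exact ⟨i, p, ih hp, rfl⟩

theorem stage_anti {m n : ℕ} (h : m ≤ n) : stage n ⊆ stage m := by
  induction h with
  | refl => exact Subset.rfl
  | step _ ih => exact (stage_succ_subset _).trans ih

theorem gasket_subset_tri : gasket ⊆ tri := fun _ hx => mem_iInter.1 hx 0

theorem f_mem_gasket {i : Fin 3} {p : Fin 3 → ℝ} (h : p ∈ gasket) : f i p ∈ gasket := by
  rw [gasket, mem_iInter] at h ⊢
  intro n
  apply stage_succ_subset
  rw [stage, mem_iUnion]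
  exact ⟨i, p, h n, rfl⟩

theorem exists_of_mem_gasket {x : Fin 3 → ℝ} (h : x ∈ gasket) : ∃ i, ∃ p ∈ gasket, f i p = x := by
  by_contra hcon
  push Not at hcon
  have h1 : ∀ i : Fin 3, ∃ n, ∀ p ∈ stage n, f i p ≠ x := by
    intro i
    by_contra h2
    push Not at h2
    obtain ⟨p, hp, hpx⟩ := h2 0
    refine hcon i p ?_ hpx
    rw [gasket, mem_iInter]
    intro n
    obtain ⟨p', hp', hp'x⟩ := h2 n
    rwa [f_inj (hpx.trans hp'x.symm)]
  choose N hN using h1
  have h2 : x ∈ stage (max (max (N 0) (N 1)) (N 2) + 1) := mem_iInter.1 h _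
  rw [stage, mem_iUnion] at h2
  obtain ⟨i, p, hp, hpx⟩ := h2
  refine hN i p (stage_anti ?_ hp) hpx
  fin_cases i
  · exact (le_max_left _ _).trans (le_max_left _ _)
  · exact (le_max_right _ _).trans (le_max_left _ _)
  · exact le_max_right _ _

theorem F_mem_gasket {w : List (Fin 3)} {p : Fin 3 → ℝ} (h : p ∈ gasket) : F w p ∈ gasket := by
  induction w with
  | nil => exact h
  | cons i w ih => exact f_mem_gasket ih

theorem exists_word {x : Fin 3 → ℝ} (n : ℕ) (h : x ∈ gasket) :
    ∃ w : List.Vector (Fin 3) n, ∃ p ∈ gasket, F w.1 p = x := by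
  induction n generalizing x with
  | zero => exact ⟨⟨[], rfl⟩, x, h, rfl⟩
  | succ n ih =>
    obtain ⟨i, p, hp, hpx⟩ := exists_of_mem_gasket h
    obtain ⟨w, p', hp', hw⟩ := ih hp
    refine ⟨⟨i :: w.1, by simp [w.2]⟩, p', hp', ?_⟩
    change f i (F w.1 p') = x
    rw [hw, hpx]

/-- The points of the edges. -/
def seg (a b : Fin 3) (t : ℝ) : Fin 3 → ℝ := fun j => (1 - t) * q a j + t * q b j

theorem seg_zero (a b : Fin 3) : seg a b 0 = q a := by
  funext j
  simp [seg]

theorem seg_one (a b : Fin 3) : seg a b 1 = q b := by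
  funext j
  simp [seg]

theorem seg_cont (a b : Fin 3) : Continuous (seg a b) :=
  continuous_pi fun j => ((continuous_const.sub continuous_id).mul continuous_const).add
    (continuous_id.mul continuous_const)

theorem seg_mem (a b : Fin 3) {t : ℝ} (h0 : 0 ≤ t) (h1 : t ≤ 1) : seg a b t ∈ gasket := by
  rw [gasket, mem_iInter]
  intro n
  induction n generalizing t with
  | zero =>
    refine ⟨fun j => ?_, ?_⟩
    · have := q_nonneg a j
      have := q_nonneg b j
      unfold seg
      have h2 : 0 ≤ (1 - t) * q a j := mul_nonneg (by linarith) (q_nonneg a j)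
      have h3 : 0 ≤ t * q b j := mul_nonneg h0 (q_nonneg b j)
      linarith
    · have h2 := sum_q a
      have h3 := sum_q b
      unfold seg
      linear_combination (1 - t) * h2 + t * h3
  | succ n ih =>
    rw [stage, mem_iUnion]
    by_cases ht : t ≤ 1 / 2
    · refine ⟨a, seg a b (2 * t), ih (by linarith) (by linarith), ?_⟩
      funext j
      simp only [f_apply, seg]
      ring
    · push Not at ht
      refine ⟨b, seg a b (2 * t - 1), ih (by linarith) (by linarith), ?_⟩
      funext j
      simp only [f_apply, seg]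
      ring

theorem q_mem (a : Fin 3) : q a ∈ gasket := by
  rw [← seg_zero a a]
  exact seg_mem a a le_rfl zero_le_one

/-- Some coordinate of a point of the gasket is at least `1/2`. -/
theorem half {p : Fin 3 → ℝ} (h : p ∈ gasket) : ∃ i, 1 / 2 ≤ p i := by
  obtain ⟨i, p', hp', rfl⟩ := exists_of_mem_gasket h
  refine ⟨i, ?_⟩
  have := (gasket_subset_tri hp').1 i
  rw [f_apply, q_self]
  linarith

/-- The rotation of the triangle. -/
def rot (p : Fin 3 → ℝ) : Fin 3 → ℝ := fun j => p (j - 1)

theorem rot_q (a : Fin 3) : rot (q a) = q (a + 1) := by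
  funext j
  unfold rot q
  have : (j - 1 = a) ↔ (j = a + 1) := sub_eq_iff_eq_add
  simp only [this]

theorem rot_f (i : Fin 3) (p : Fin 3 → ℝ) : rot (f i p) = f (i + 1) (rot p) := by
  funext j
  have h := congrFun (rot_q i) j
  have h' : q i (j - 1) = q (i + 1) j := h
  change (p (j - 1) + q i (j - 1)) / 2 = (p (j - 1) + q (i + 1) j) / 2
  rw [h']

theorem rot_cont : Continuous rot := continuous_pi fun j => continuous_apply (j - 1)

theorem rot_mem_tri {p : Fin 3 → ℝ} (h : p ∈ tri) : rot p ∈ tri := by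
  refine ⟨fun _ => h.1 _, ?_⟩
  have := h.2
  have e0 : (0 : Fin 3) - 1 = 2 := rfl
  have e1 : (1 : Fin 3) - 1 = 0 := rfl
  have e2 : (2 : Fin 3) - 1 = 1 := rfl
  unfold rot
  rw [e0, e1, e2]
  linarith

theorem rot_mem {p : Fin 3 → ℝ} (h : p ∈ gasket) : rot p ∈ gasket := by
  rw [gasket, mem_iInter] at h ⊢
  intro n
  have h1 := h n
  clear h
  induction n generalizing p with
  | zero => exact rot_mem_tri h1
  | succ n ih =>
    rw [stage, mem_iUnion] at h1 ⊢
    obtain ⟨i, p', hp', rfl⟩ := h1
    exact ⟨i + 1, rot p', ih hp', (rot_f i p').symm⟩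

theorem rot_ne {p : Fin 3 → ℝ} (h : p ∈ gasket) : rot p ≠ p := by
  intro he
  obtain ⟨i, hi⟩ := half h
  have h1 := congrFun he 0
  have h2 := congrFun he 1
  have e0 : (0 : Fin 3) - 1 = 2 := rfl
  have e1 : (1 : Fin 3) - 1 = 0 := rfl
  unfold rot at h1 h2
  rw [e0] at h1
  rw [e1] at h2
  have h3 := (gasket_subset_tri h).2
  have : p i = p 0 := by
    fin_cases i
    · rfl
    · exact h2.symm
    · exact h1
  linarith

/-! ### Distances -/

theorem dist_f (i : Fin 3) (p p' : Fin 3 → ℝ) : dist (f i p) (f i p') ≤ 1 / 2 * dist p p' := by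
  rw [dist_pi_le_iff (by positivity)]
  intro j
  have := dist_le_pi_dist p p' j
  rw [Real.dist_eq] at this ⊢
  rw [f_apply, f_apply, show (p j + q i j) / 2 - (p' j + q i j) / 2 = 1 / 2 * (p j - p' j) by ring,
    abs_mul, abs_of_pos (by norm_num : (0 : ℝ) < 1 / 2)]
  linarith

theorem dist_F (w : List (Fin 3)) {p p' : Fin 3 → ℝ} (hp : p ∈ tri) (hp' : p' ∈ tri) :
    dist (F w p) (F w p') ≤ (1 / 2) ^ w.length := by
  induction w with
  | nil =>
    rw [F_nil, F_nil, List.length_nil, pow_zero, dist_pi_le_iff zero_le_one]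
    intro j
    have h1 := hp.1 j
    have h2 := hp'.1 j
    have h3 := tri_le_one hp j
    have h4 := tri_le_one hp' j
    rw [Real.dist_eq, abs_le]
    constructor <;> linarith
  | cons i w ih =>
    rw [F_cons, F_cons, List.length_cons, pow_succ]
    have := dist_f i (F w p) (F w p')
    linarith

theorem isClosed_tri : IsClosed tri := by
  have h1 : IsClosed {p : Fin 3 → ℝ | ∀ j, 0 ≤ p j} := by
    rw [ofPred_forall]
    exact isClosed_iInter fun j => isClosed_le continuous_const (continuous_apply j)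
  have h2 : IsClosed {p : Fin 3 → ℝ | p 0 + p 1 + p 2 = 1} :=
    isClosed_eq (((continuous_apply 0).add (continuous_apply 1)).add (continuous_apply 2))
      continuous_const
  exact h1.inter h2

theorem isCompact_tri : IsCompact tri := by
  refine Metric.isCompact_of_isClosed_isBounded isClosed_tri ?_
  refine (Metric.isBounded_closedBall (x := (0 : Fin 3 → ℝ)) (r := 1)).subset ?_
  intro p hp
  rw [Metric.mem_closedBall, dist_pi_le_iff zero_le_one]
  intro j
  have h1 := hp.1 j
  have h2 := tri_le_one hp j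
  rw [Real.dist_eq, abs_le]
  simp only [Pi.zero_apply, sub_zero]
  constructor <;> linarith

theorem isCompact_stage (n : ℕ) : IsCompact (stage n) := by
  induction n with
  | zero => exact isCompact_tri
  | succ n ih =>
    rw [stage]
    exact isCompact_iUnion fun i => ih.image (f_cont i)

theorem isCompact_gasket : IsCompact gasket :=
  isCompact_tri.of_isClosed_subset (isClosed_iInter fun n => (isCompact_stage n).isClosed)
    gasket_subset_tri


/-! ### The map -/

theorem F_append2 (w : List (Fin 3)) (i j : Fin 3) (p : Fin 3 → ℝ) :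
    F (w ++ [i, j]) p = F w (f i (f j p)) := by
  simp [F, List.foldr_append]

section Map

variable {n : ℕ}

/-- A cell of level `n` which has `v` as a vertex, and the number of this vertex. -/
noncomputable def host (n : ℕ) (v : Fin 3 → ℝ) : List.Vector (Fin 3) n × Fin 3 :=
  Classical.epsilon fun c => F c.1.1 (q c.2) = v

theorem host_spec (w : List.Vector (Fin 3) n) (a : Fin 3) :
    F (host n (F w.1 (q a))).1.1 (q (host n (F w.1 (q a))).2) = F w.1 (q a) :=
  Classical.epsilon_spec (p := fun c : List.Vector (Fin 3) n × Fin 3 =>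
    F c.1.1 (q c.2) = F w.1 (q a)) ⟨(w, a), rfl⟩

/-- The contraction onto the small cell at a vertex of a cell. -/
noncomputable def cm (c : List.Vector (Fin 3) n × Fin 3) (p : Fin 3 → ℝ) : Fin 3 → ℝ :=
  F c.1.1 (f c.2 (f c.2 p))

theorem cm_cont (c : List.Vector (Fin 3) n × Fin 3) : Continuous (cm c) :=
  (F_cont _).comp ((f_cont _).comp (f_cont _))

theorem cm_q (c : List.Vector (Fin 3) n × Fin 3) : cm c (q c.2) = F c.1.1 (q c.2) := by
  unfold cm
  rw [f_q_self, f_q_self]

theorem cm_mem {c : List.Vector (Fin 3) n × Fin 3} {p : Fin 3 → ℝ} (h : p ∈ gasket) :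
    cm c p ∈ gasket := F_mem_gasket (f_mem_gasket (f_mem_gasket h))

/-- The image of a vertex of level `n`. -/
noncomputable def yy (n : ℕ) (v : Fin 3 → ℝ) : Fin 3 → ℝ := cm (host n v) (q ((host n v).2 + 1))

/-- The intermediate vertex of a path. -/
def kk (i j : Fin 3) : Fin 3 := if j = 0 then -i else 0

/-- The last vertex of a path. -/
noncomputable def bb (w : List.Vector (Fin 3) n) (i j : Fin 3) : Fin 3 :=
  if host n (F w.1 (q i)) = (w, i) then j + 1 else (host n (F w.1 (q i))).2 + 1

/-- The paths. -/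
noncomputable def path (w : List.Vector (Fin 3) n) (i j : Fin 3) (s : ℝ) : Fin 3 → ℝ :=
  if s ≤ 1 / 3 then F w.1 (seg 0 (kk i j) (3 * s)) else
    if s ≤ 2 / 3 then F w.1 (seg (kk i j) i (3 * s - 1)) else
      cm (host n (F w.1 (q i))) (seg (host n (F w.1 (q i))).2 (bb w i j) (3 * s - 2))

theorem path_zero (w : List.Vector (Fin 3) n) (i j : Fin 3) : path w i j 0 = F w.1 (q 0) := by
  unfold path
  rw [if_pos (by norm_num), mul_zero, seg_zero]

theorem path_one (w : List.Vector (Fin 3) n) (i j : Fin 3) :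
    path w i j 1 = cm (host n (F w.1 (q i))) (q (bb w i j)) := by
  unfold path
  rw [if_neg (by norm_num), if_neg (by norm_num), show (3 * 1 - 2 : ℝ) = 1 by norm_num, seg_one]

theorem path_cont (w : List.Vector (Fin 3) n) (i j : Fin 3) : Continuous (path w i j) := by
  have h3 : Continuous fun s : ℝ => 3 * s := continuous_const.mul continuous_id
  refine Continuous.if_le ((F_cont _).comp ((seg_cont _ _).comp h3)) ?_ continuous_id
    continuous_const ?_
  · refine Continuous.if_le ((F_cont _).comp ((seg_cont _ _).comp (h3.sub continuous_const)))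
      ((cm_cont _).comp ((seg_cont _ _).comp (h3.sub continuous_const))) continuous_id
      continuous_const ?_
    intro s hs
    rw [hs, show (3 * (2 / 3) - 1 : ℝ) = 1 by norm_num, show (3 * (2 / 3) - 2 : ℝ) = 0 by norm_num,
      seg_one, seg_zero, cm_q, host_spec]
  · intro s hs
    rw [hs, if_pos (by norm_num), show (3 * (1 / 3) : ℝ) = 1 by norm_num, seg_one,
      show (1 - 1 : ℝ) = 0 by norm_num, seg_zero]

/-- The map on the cell of the word `w i j`, in the coordinates of this cell. -/
noncomputable def SS (w : List.Vector (Fin 3) n) (i j : Fin 3) (z : Fin 3 → ℝ) : Fin 3 → ℝ :=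
  if i = j then
    if host n (F w.1 (q i)) = (w, i) then cm (w, i) (rot z) else yy n (F w.1 (q i))
  else path w i j (z i)

theorem SS_cont (w : List.Vector (Fin 3) n) (i j : Fin 3) : Continuous (SS w i j) := by
  unfold SS
  split_ifs
  · exact (cm_cont _).comp rot_cont
  · exact continuous_const
  · exact (path_cont w i j).comp (continuous_apply i)

theorem SS_vertex (w : List.Vector (Fin 3) n) (b : Fin 3) :
    SS w b b (q b) = yy n (F w.1 (q b)) := by
  unfold SS
  rw [if_pos rfl]
  split_ifs with h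
  · rw [rot_q]
    unfold yy
    rw [h]
  · rfl

theorem SS_glue (w : List.Vector (Fin 3) n) {i j : Fin 3} (h : j ≠ i) :
    SS w i i (q j) = SS w i j (q i) := by
  unfold SS
  rw [if_pos rfl, if_neg h.symm, q_self, path_one]
  unfold bb
  split_ifs with h1
  · rw [rot_q, h1]
  · rfl

theorem SS_base (w : List.Vector (Fin 3) n) {i j l : Fin 3} (h : i ≠ j) (h' : i ≠ l) :
    SS w i j (q l) = F w.1 (q 0) := by
  unfold SS
  rw [if_neg h, q_ne h', path_zero]

/-- The maps on the cells agree where the cells meet. -/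
theorem SS_eq {w w' : List.Vector (Fin 3) n} {i j i' j' : Fin 3} {z z' : Fin 3 → ℝ}
    (hz : z ∈ tri) (hz' : z' ∈ tri) (h : F w.1 (f i (f j z)) = F w'.1 (f i' (f j' z'))) :
    SS w i j z = SS w' i' j' z' := by
  by_cases hw : w = w'
  · subst hw
    have h1 := F_inj h
    by_cases hi : i = i'
    · subst hi
      have h2 := f_inj h1
      by_cases hj : j = j'
      · subst hj
        rw [f_inj h2]
      · obtain ⟨rfl, rfl⟩ := inter1 hj hz hz' h2
        by_cases hij : j = i
        · subst hij
          exact SS_glue w (fun hh => hj hh.symm)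
        · by_cases hij' : j' = i
          · subst hij'
            exact (SS_glue w hj).symm
          · rw [SS_base w (fun hh => hij hh.symm) (fun hh => hij' hh.symm),
              SS_base w (fun hh => hij' hh.symm) (fun hh => hij hh.symm)]
    · obtain ⟨h2, h3⟩ := inter1 hi (f_mem_tri hz) (f_mem_tri hz') h1
      obtain ⟨h4, h5⟩ := ext1 hz h2
      obtain ⟨h6, h7⟩ := ext1 hz' h3
      rw [h4, h5, h6, h7, SS_base w hi hi, SS_base w (fun hh => hi hh.symm) (fun hh => hi hh.symm)]
  · obtain ⟨b, b', h1, h2⟩ := inter w.1 w'.1 (by rw [w.2, w'.2]) (fun hh => hw (Subtype.ext hh))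
      _ _ (f_mem_tri (f_mem_tri hz)) (f_mem_tri (f_mem_tri hz')) h
    have h0 : F w.1 (q b) = F w'.1 (q b') := by rw [← h1, ← h2, h]
    obtain ⟨h3, h4⟩ := ext1 (f_mem_tri hz) h1
    obtain ⟨h5, h6⟩ := ext1 hz h4
    obtain ⟨h7, h8⟩ := ext1 (f_mem_tri hz') h2
    obtain ⟨h9, h10⟩ := ext1 hz' h8
    rw [h3, h5, h6, h7, h9, h10, SS_vertex, SS_vertex, h0]

theorem cm_region {c : List.Vector (Fin 3) n × Fin 3} {p : Fin 3 → ℝ} (h : p ∈ gasket) :
    cm c p ∈ cm c '' gasket := ⟨p, h, rfl⟩

/-- The cell of `w` together with the small cells attached to its vertices. -/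
def region (w : List.Vector (Fin 3) n) : Set (Fin 3 → ℝ) :=
  F w.1 '' gasket ∪ ⋃ i : Fin 3, cm (host n (F w.1 (q i))) '' gasket

theorem SS_region (w : List.Vector (Fin 3) n) (i j : Fin 3) {z : Fin 3 → ℝ} (hz : z ∈ gasket) :
    SS w i j z ∈ region w := by
  have hz0 : 0 ≤ z i := (gasket_subset_tri hz).1 i
  have hz1 : z i ≤ 1 := tri_le_one (gasket_subset_tri hz) i
  unfold SS
  split_ifs with h1 h2
  · left
    exact ⟨f i (f i (rot z)), f_mem_gasket (f_mem_gasket (rot_mem hz)), rfl⟩
  · right
    exact mem_iUnion.2 ⟨i, cm_region (q_mem _)⟩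
  · unfold path
    split_ifs with h3 h4
    · left
      exact ⟨_, seg_mem _ _ (by linarith) (by linarith), rfl⟩
    · left
      exact ⟨_, seg_mem _ _ (by linarith) (by linarith), rfl⟩
    · right
      exact mem_iUnion.2 ⟨i, cm_region (seg_mem _ _ (by linarith) (by linarith))⟩

theorem region_subset (w : List.Vector (Fin 3) n) : region w ⊆ gasket := by
  intro x hx
  rcases hx with ⟨p, hp, rfl⟩ | hx
  · exact F_mem_gasket hp
  · obtain ⟨i, p, hp, rfl⟩ := mem_iUnion.1 hx
    exact cm_mem hp

/-- The vertices `0` and `k` of the triangle, the segments and the cell `i j`. -/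
theorem seg_ne {i j a b : Fin 3} {z : Fin 3 → ℝ} (hz : z ∈ tri) {t : ℝ}
    (h : (i ≠ a ∧ i ≠ b) ∨ (j ≠ a ∧ j ≠ b)) (hij : i ≠ j) : seg a b t ≠ f i (f j z) := by
  intro he
  rcases h with ⟨h1, h2⟩ | ⟨h1, h2⟩
  · have h3 := congrFun he i
    unfold seg at h3
    rw [q_ne h1, q_ne h2, f_apply, f_apply, q_self, q_ne hij] at h3
    have := hz.1 i
    linarith
  · have h3 := congrFun he j
    unfold seg at h3
    rw [q_ne h1, q_ne h2, f_apply, f_apply, q_self, q_ne hij.symm] at h3
    have := hz.1 j
    linarith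

theorem kk_one {i j : Fin 3} (h : i ≠ j) :
    (i ≠ 0 ∧ i ≠ kk i j) ∨ (j ≠ 0 ∧ j ≠ kk i j) := by
  revert i j
  decide

theorem kk_two {i j : Fin 3} (h : i ≠ j) :
    (i ≠ kk i j ∧ i ≠ i) ∨ (j ≠ kk i j ∧ j ≠ i) := by
  revert i j
  decide

theorem add_one_ne (a : Fin 3) : a + 1 ≠ a := by
  revert a
  decide

theorem SS_ne (w : List.Vector (Fin 3) n) (i j : Fin 3) {z : Fin 3 → ℝ} (hz : z ∈ gasket) :
    SS w i j z ≠ F w.1 (f i (f j z)) := by
  have hzt := gasket_subset_tri hz
  have hz0 : 0 ≤ z i := hzt.1 i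
  have hz1 : z i ≤ 1 := tri_le_one hzt i
  have hspec := host_spec w i
  unfold SS
  split_ifs with h1 h2
  · subst h1
    intro he
    exact rot_ne hz (f_inj (f_inj (F_inj he)))
  · subst h1
    intro he
    unfold yy at he
    by_cases hw : (host n (F w.1 (q i))).1 = w
    · rw [hw] at hspec
      have h3 := q_inj (F_inj hspec)
      exact h2 (Prod.ext hw h3)
    · obtain ⟨b, b', h3, h4⟩ := inter _ _ (by rw [(host n (F w.1 (q i))).1.2, w.2])
        (fun hh => hw (Subtype.ext hh)) _ _
        (f_mem_tri (f_mem_tri (q_mem_tri _))) (f_mem_tri (f_mem_tri hzt)) he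
      obtain ⟨h5, h6⟩ := ext1 (f_mem_tri (q_mem_tri _)) h3
      obtain ⟨h7, h8⟩ := ext1 (q_mem_tri _) h6
      have h9 := q_inj h8
      rw [← h5] at h9
      exact add_one_ne _ h9
  · unfold path
    split_ifs with h3 h4
    · intro he
      exact seg_ne hzt (kk_one h1) h1 (F_inj he)
    · intro he
      exact seg_ne hzt (kk_two h1) h1 (F_inj he)
    · intro he
      have hs : seg (host n (F w.1 (q i))).2 (bb w i j) (3 * z i - 2) ∈ tri :=
        gasket_subset_tri (seg_mem _ _ (by linarith) (by linarith))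
      by_cases hw : (host n (F w.1 (q i))).1 = w
      · have hspec' := hspec
        rw [hw] at hspec'
        have h5 : (host n (F w.1 (q i))).2 = i := q_inj (F_inj hspec')
        have h6 : host n (F w.1 (q i)) = (w, i) := Prod.ext hw h5
        have hb : bb w i j = j + 1 := by
          unfold bb
          rw [if_pos h6]
        rw [h6, hb] at he
        rw [h6, hb] at hs
        unfold cm at he
        have h7 := f_inj (F_inj he)
        obtain ⟨h8, h9⟩ := inter1 h1 hs hzt h7
        rw [h9, q_self, show (3 * 1 - 2 : ℝ) = 1 by norm_num] at h8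
        rw [seg_one] at h8
        exact add_one_ne _ (q_inj h8)
      · obtain ⟨b, b', h5, h6⟩ := inter _ _ (by rw [(host n (F w.1 (q i))).1.2, w.2])
          (fun hh => hw (Subtype.ext hh)) _ _
          (f_mem_tri (f_mem_tri hs)) (f_mem_tri (f_mem_tri hzt)) he
        obtain ⟨h7, h8⟩ := ext1 (f_mem_tri hzt) h6
        obtain ⟨h9, -⟩ := ext1 hzt h8
        exact h1 (h7.trans h9.symm)

theorem exists_code (x : gasket) : ∃ c : List.Vector (Fin 3) n × Fin 3 × Fin 3, ∃ z ∈ gasket,
    F c.1.1 (f c.2.1 (f c.2.2 z)) = x.1 := by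
  obtain ⟨w, p, hp, hw⟩ := exists_word n x.2
  obtain ⟨i, p', hp', hi⟩ := exists_of_mem_gasket hp
  obtain ⟨j, z, hz, hj⟩ := exists_of_mem_gasket hp'
  exact ⟨(w, i, j), z, hz, by rw [hj, hi, hw]⟩

theorem exists_map (n : ℕ) : ∃ T : gasket → gasket, Continuous T ∧ (∀ x, T x ≠ x) ∧
    ∀ (w : List.Vector (Fin 3) n) (x : gasket), x.1 ∈ region w → (T x).1 ∈ region w := by
  choose c z hz hc using fun x : gasket => exists_code (n := n) x
  have hmem : ∀ x : gasket, SS (c x).1 (c x).2.1 (c x).2.2 (z x) ∈ gasket := fun x =>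
    region_subset _ (SS_region _ _ _ (hz x))
  have hT : ∀ (x : gasket) (w : List.Vector (Fin 3) n) (i j : Fin 3) (z' : Fin 3 → ℝ), z' ∈ tri →
      F w.1 (f i (f j z')) = x.1 → SS (c x).1 (c x).2.1 (c x).2.2 (z x) = SS w i j z' := by
    intro x w i j z' hz' h
    exact SS_eq (gasket_subset_tri (hz x)) hz' ((hc x).trans h.symm)
  refine ⟨fun x => ⟨SS (c x).1 (c x).2.1 (c x).2.2 (z x), hmem x⟩, ?_, ?_, ?_⟩
  · refine Continuous.subtype_mk ?_ _
    let C : List.Vector (Fin 3) n × Fin 3 × Fin 3 → Set gasket := fun d =>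
      {x | x.1 ∈ F (d.1.1 ++ [d.2.1, d.2.2]) '' tri}
    have hcov : ⋃ d, C d = univ := by
      rw [eq_univ_iff_forall]
      intro x
      rw [mem_iUnion]
      refine ⟨c x, z x, gasket_subset_tri (hz x), ?_⟩
      rw [F_append2]
      exact hc x
    refine LocallyFinite.continuous (locallyFinite_of_finite C) hcov ?_ ?_
    · intro d
      exact (isCompact_tri.image (F_cont _)).isClosed.preimage continuous_subtype_val
    · intro d
      have h1 : ContinuousOn (fun x : gasket => SS d.1 d.2.1 d.2.2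
          (Fi (d.1.1 ++ [d.2.1, d.2.2]) x.1)) (C d) :=
        ((SS_cont _ _ _).comp ((Fi_cont _).comp continuous_subtype_val)).continuousOn
      refine h1.congr ?_
      rintro x ⟨z', hz', hx⟩
      have h2 : Fi (d.1.1 ++ [d.2.1, d.2.2]) x.1 = z' := by rw [← hx, Fi_F]
      simp only [h2]
      rw [F_append2] at hx
      exact hT x _ _ _ z' hz' hx
  · intro x hx
    have h1 : SS (c x).1 (c x).2.1 (c x).2.2 (z x) = x.1 := congrArg Subtype.val hx
    exact SS_ne _ _ _ (hz x) (h1.trans (hc x).symm)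
  · intro w x hx
    rcases hx with ⟨p, hp, hpx⟩ | hx
    · obtain ⟨i, p', hp', hi⟩ := exists_of_mem_gasket hp
      obtain ⟨j, z', hz', hj⟩ := exists_of_mem_gasket hp'
      have h1 := hT x w i j z' (gasket_subset_tri hz') (by rw [hj, hi, hpx])
      change SS (c x).1 (c x).2.1 (c x).2.2 (z x) ∈ region w
      rw [h1]
      exact SS_region _ _ _ hz'
    · obtain ⟨i, p, hp, hpx⟩ := mem_iUnion.1 hx
      set d := host n (F w.1 (q i)) with hd
      have h1 := hT x d.1 d.2 d.2 p (gasket_subset_tri hp) hpx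
      change SS (c x).1 (c x).2.1 (c x).2.2 (z x) ∈ region w
      rw [h1]
      right
      rw [mem_iUnion]
      refine ⟨i, rot p, rot_mem hp, ?_⟩
      have h2 : F d.1.1 (q d.2) = F w.1 (q i) := host_spec w i
      unfold SS
      rw [if_pos rfl, if_pos (by rw [h2]), ← hd]

end Map

theorem exists_small (B : ℝ) (hB : 0 < B) : ∃ T : gasket → gasket, Continuous T ∧
    DispBelow T B ∧ ∀ x, T x ≠ x := by
  obtain ⟨n, hn⟩ := exists_pow_lt_of_lt_one (show (0 : ℝ) < B / 2 by linarith)
    (show (1 / 2 : ℝ) < 1 by norm_num)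
  obtain ⟨T, hT1, hT2, hT3⟩ := exists_map n
  refine ⟨T, hT1, ?_, hT2⟩
  intro m _ x
  obtain ⟨w, p, hp, hw⟩ := exists_word n x.2
  have hreg : ∀ m : ℕ, (T^[m] x).1 ∈ region w := by
    intro m
    induction m with
    | zero => exact Or.inl ⟨p, hp, hw⟩
    | succ m ih =>
      rw [Function.iterate_succ_apply']
      exact hT3 w _ ih
  have hwl : w.1.length = n := w.2
  rw [Subtype.dist_eq, dist_comm, ← hw]
  rcases hreg m with ⟨p', hp', hp'x⟩ | h
  · rw [← hp'x]
    refine (dist_F w.1 (gasket_subset_tri hp) (gasket_subset_tri hp')).trans_lt ?_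
    rw [hwl]
    linarith
  · obtain ⟨i, p', hp', hp'x⟩ := mem_iUnion.1 h
    rw [← hp'x]
    have h1 := dist_F w.1 (gasket_subset_tri hp) (q_mem_tri i)
    have h2 := dist_F (host n (F w.1 (q i))).1.1 (q_mem_tri (host n (F w.1 (q i))).2)
      (f_mem_tri (f_mem_tri (gasket_subset_tri hp')) :
        f (host n (F w.1 (q i))).2 (f (host n (F w.1 (q i))).2 p') ∈ tri)
    rw [host_spec, (host n (F w.1 (q i))).1.2] at h2
    rw [hwl] at h1
    have h3 := dist_triangle (F w.1 p) (F w.1 (q i)) (cm (host n (F w.1 (q i))) p')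
    have h4 : dist (F w.1 (q i)) (cm (host n (F w.1 (q i))) p') ≤ (1 / 2) ^ n := h2
    linarith

theorem not_PropF : ¬ PropF gasket := by
  rintro ⟨B, hB, h⟩
  obtain ⟨T, hT1, hT2, hT3⟩ := exists_small B hB
  obtain ⟨x, hx⟩ := h T hT1 hT2
  exact hT3 x hx

/-! ### The gasket is a locally connected continuum -/

/-- The graphs which approximate the gasket. -/
def skel : ℕ → Set (Fin 3 → ℝ)
  | 0 => ⋃ a : Fin 3, ⋃ b : Fin 3, seg a b '' Icc 0 1
  | n + 1 => ⋃ i, f i '' skel n

theorem q_mem_skel (n : ℕ) (a : Fin 3) : q a ∈ skel n := by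
  induction n with
  | zero =>
    rw [skel, mem_iUnion]
    refine ⟨a, mem_iUnion.2 ⟨a, 0, ⟨le_rfl, zero_le_one⟩, seg_zero a a⟩⟩
  | succ n ih =>
    rw [skel, mem_iUnion]
    exact ⟨a, q a, ih, f_q_self a⟩

theorem skel_subset (n : ℕ) : skel n ⊆ gasket := by
  induction n with
  | zero =>
    intro x hx
    rw [skel, mem_iUnion] at hx
    obtain ⟨a, hx⟩ := hx
    obtain ⟨b, t, ht, rfl⟩ := mem_iUnion.1 hx
    exact seg_mem a b ht.1 ht.2
  | succ n ih =>
    intro x hx
    rw [skel, mem_iUnion] at hx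
    obtain ⟨i, p, hp, rfl⟩ := hx
    exact f_mem_gasket (ih hp)

theorem isPreconnected_skel (n : ℕ) : IsPreconnected (skel n) := by
  induction n with
  | zero =>
    have h1 : ∀ a b : Fin 3, IsPreconnected (seg a b '' Icc 0 1) := fun a b =>
      isPreconnected_Icc.image _ (seg_cont a b).continuousOn
    have h2 : ∀ a b : Fin 3, q a ∈ seg a b '' Icc 0 1 := fun a b =>
      ⟨0, ⟨le_rfl, zero_le_one⟩, seg_zero a b⟩
    have h3 : ∀ a b : Fin 3, q b ∈ seg a b '' Icc 0 1 := fun a b =>
      ⟨1, ⟨zero_le_one, le_rfl⟩, seg_one a b⟩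
    have h4 : ∀ a : Fin 3, IsPreconnected (⋃ b : Fin 3, seg a b '' Icc 0 1) := fun a =>
      isPreconnected_iUnion ⟨q a, mem_iInter.2 fun b => h2 a b⟩ (h1 a)
    rw [skel]
    refine isPreconnected_iUnion ⟨q 0, mem_iInter.2 fun a => mem_iUnion.2 ⟨0, h3 a 0⟩⟩ h4
  | succ n ih =>
    have h1 : ∀ i, IsPreconnected (f i '' skel n) := fun i => ih.image _ (f_cont i).continuousOn
    have h2 : ∀ i j, f i (q j) ∈ f i '' skel n := fun i j => ⟨q j, q_mem_skel n j, rfl⟩
    have h01 : IsPreconnected (f 0 '' skel n ∪ f 1 '' skel n) :=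
      IsPreconnected.union (f 0 (q 1)) (h2 0 1) (by rw [f_q]; exact h2 1 0) (h1 0) (h1 1)
    have h012 : IsPreconnected ((f 0 '' skel n ∪ f 1 '' skel n) ∪ f 2 '' skel n) :=
      IsPreconnected.union (f 0 (q 2)) (Or.inl (h2 0 2)) (by rw [f_q]; exact h2 2 0) h01 (h1 2)
    have he : skel (n + 1) = (f 0 '' skel n ∪ f 1 '' skel n) ∪ f 2 '' skel n := by
      rw [skel]
      ext x
      rw [mem_iUnion]
      constructor
      · rintro ⟨i, hi⟩
        fin_cases i
        · exact Or.inl (Or.inl hi)
        · exact Or.inl (Or.inr hi)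
        · exact Or.inr hi
      · rintro ((h | h) | h)
        · exact ⟨0, h⟩
        · exact ⟨1, h⟩
        · exact ⟨2, h⟩
    rw [he]
    exact h012

theorem F_q_mem_skel (w : List (Fin 3)) (a : Fin 3) : F w (q a) ∈ skel w.length := by
  induction w with
  | nil => exact q_mem_skel 0 a
  | cons i w ih =>
    rw [List.length_cons, skel, mem_iUnion]
    exact ⟨i, _, ih, rfl⟩

theorem isPreconnected_gasket : IsPreconnected gasket := by
  have h1 : IsPreconnected (⋃ n, skel n) :=
    isPreconnected_iUnion ⟨q 0, mem_iInter.2 fun n => q_mem_skel n 0⟩ isPreconnected_skel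
  have h2 : closure (⋃ n, skel n) = gasket := by
    apply Subset.antisymm
    · exact closure_minimal (iUnion_subset skel_subset) isCompact_gasket.isClosed
    · intro x hx
      rw [Metric.mem_closure_iff]
      intro ε hε
      obtain ⟨n, hn⟩ := exists_pow_lt_of_lt_one hε (show (1 / 2 : ℝ) < 1 by norm_num)
      obtain ⟨w, p, hp, hw⟩ := exists_word n hx
      refine ⟨F w.1 (q 0), mem_iUnion.2 ⟨_, F_q_mem_skel w.1 0⟩, ?_⟩
      rw [← hw]
      refine (dist_F w.1 (gasket_subset_tri hp) (q_mem_tri 0)).trans_lt ?_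
      rwa [show w.1.length = n from w.2]
  rw [← h2]
  exact h1.closure

theorem isConnected_gasket : IsConnected gasket := ⟨⟨q 0, q_mem 0⟩, isPreconnected_gasket⟩

theorem compactSpace_gasket : CompactSpace gasket := isCompact_iff_compactSpace.1 isCompact_gasket

theorem connectedSpace_gasket : ConnectedSpace gasket :=
  isConnected_iff_connectedSpace.1 isConnected_gasket

/-- The cells, as subsets of the gasket. -/
def cell {n : ℕ} (w : List.Vector (Fin 3) n) : Set gasket :=
  range fun p : gasket => (⟨F w.1 p.1, F_mem_gasket p.2⟩ : gasket)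

theorem cell_cont {n : ℕ} (w : List.Vector (Fin 3) n) :
    Continuous fun p : gasket => (⟨F w.1 p.1, F_mem_gasket p.2⟩ : gasket) :=
  ((F_cont _).comp continuous_subtype_val).subtype_mk _

theorem exists_cell (n : ℕ) (x : gasket) : ∃ w : List.Vector (Fin 3) n, x ∈ cell w := by
  obtain ⟨w, p, hp, hw⟩ := exists_word n x.2
  exact ⟨w, ⟨p, hp⟩, Subtype.ext hw⟩

theorem cell_dist {n : ℕ} {w : List.Vector (Fin 3) n} {x y : gasket} (hx : x ∈ cell w)
    (hy : y ∈ cell w) : dist x y ≤ (1 / 2) ^ n := by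
  obtain ⟨p, rfl⟩ := hx
  obtain ⟨p', rfl⟩ := hy
  have h := dist_F w.1 (gasket_subset_tri p.2) (gasket_subset_tri p'.2)
  rw [show w.1.length = n from w.2] at h
  exact h

theorem locallyConnected_gasket : LocallyConnectedSpace gasket := by
  have hc := compactSpace_gasket
  have hc' := connectedSpace_gasket
  rw [locallyConnectedSpace_iff_connected_subsets]
  intro x U hU
  obtain ⟨ε, hε, hball⟩ := Metric.mem_nhds_iff.1 hU
  obtain ⟨n, hn⟩ := exists_pow_lt_of_lt_one hε (show (1 / 2 : ℝ) < 1 by norm_num)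
  refine ⟨⋃₀ {s | ∃ w : List.Vector (Fin 3) n, x ∈ cell w ∧ s = cell w}, ?_, ?_, ?_⟩
  · set K : Set gasket := ⋃ w : {w : List.Vector (Fin 3) n // x ∉ cell w}, cell w.1 with hK
    have hKc : IsClosed K := isClosed_iUnion_of_finite fun w =>
      (isCompact_range (cell_cont w.1)).isClosed
    have hxK : x ∉ K := by
      intro h
      obtain ⟨w, hw⟩ := mem_iUnion.1 h
      exact w.2 hw
    refine mem_of_superset (hKc.isOpen_compl.mem_nhds hxK) ?_
    intro y hy
    obtain ⟨w, hw⟩ := exists_cell n y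
    by_cases hxw : x ∈ cell w
    · exact ⟨cell w, ⟨w, hxw, rfl⟩, hw⟩
    · exact absurd (mem_iUnion.2 ⟨⟨w, hxw⟩, hw⟩) hy
  · refine isPreconnected_sUnion x _ ?_ ?_
    · rintro s ⟨w, hw, rfl⟩
      exact hw
    · rintro s ⟨w, hw, rfl⟩
      exact isPreconnected_range (cell_cont w)
  · rintro y ⟨s, ⟨w, hw, rfl⟩, hy⟩
    apply hball
    rw [Metric.mem_ball]
    exact (cell_dist hy hw).trans_lt hn

/-- **The Sierpinski gasket is a locally connected continuum without property (F)**: for every
`B > 0` it has a continuous self-map without fixed point all of whose iterates move every point by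
less than `B`. -/
theorem result : CompactSpace gasket ∧ ConnectedSpace gasket ∧ LocallyConnectedSpace gasket ∧
    ¬ PropF gasket ∧ ∀ B : ℝ, 0 < B → ∃ T : gasket → gasket, Continuous T ∧ DispBelow T B ∧
      ∀ x, T x ≠ x :=
  ⟨compactSpace_gasket, connectedSpace_gasket, locallyConnected_gasket, not_PropF, exists_small⟩

end Pool.Agent.Results.MP_98cb65_gt.Gasket
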